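import Pool.Agent.R257.SV.Defs

open MeasureTheory Metric Set Filter Topology Module
open scoped ENNReal NNReal InnerProductSpace

namespace R257.SV

variable {V : Type} [NormedAddCommGroup V] [InnerProductSpace ℝ V]

lemma Fro.restrict [MeasurableSpace V] {μ : Measure V} {s : ℝ} (h : Fro μ s) (S : Set V) :
    Fro (μ.restrict S) s := by
  obtain ⟨C, hC⟩ := h
  exact ⟨C, fun x r hr => (Measure.restrict_apply_le S _).trans (hC x r hr)⟩

lemma inner_Aop (x y : V) : ⟪x, Aop y x⟫_ℝ = wedge2 x y := by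
  simp only [Aop, wedge2, ContinuousLinearMap.sub_apply, ContinuousLinearMap.smul_apply,
    ContinuousLinearMap.id_apply, ContinuousLinearMap.smulRight_apply, innerSL_apply_apply,
    inner_sub_right, inner_smul_right, real_inner_self_eq_norm_sq]
  rw [real_inner_comm x y]; ring

lemma Aop_symm (y x x' : V) : ⟪Aop y x, x'⟫_ℝ = ⟪x, Aop y x'⟫_ℝ := by
  simp only [Aop, ContinuousLinearMap.sub_apply, ContinuousLinearMap.smul_apply,
    ContinuousLinearMap.id_apply, ContinuousLinearMap.smulRight_apply, innerSL_apply_apply,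
    inner_sub_right, inner_sub_left, inner_smul_right, inner_smul_left]
  rw [real_inner_comm x y]
  simp
  ring

lemma Aop_continuous : Continuous (Aop : V → V →L[ℝ] V) := by
  unfold Aop
  apply Continuous.sub
  · exact (continuous_norm.pow 2).smul continuous_const
  · have : Continuous fun y : V => ((ContinuousLinearMap.smulRightL ℝ V V) (innerSL ℝ y)) y := by
      apply Continuous.clm_apply
      · exact (ContinuousLinearMap.smulRightL ℝ V V).continuous.comp (innerSL ℝ).continuous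
      · exact continuous_id
    exact this

lemma wedge2_continuous : Continuous fun p : V × V => wedge2 p.1 p.2 := by
  unfold wedge2
  exact ((continuous_fst.norm.pow 2).mul (continuous_snd.norm.pow 2)).sub
    ((continuous_fst.inner continuous_snd).pow 2)

lemma lintegral_sq_le {α : Type*} [MeasurableSpace α] (μ : Measure α) {f : α → ℝ≥0∞}
    (hf : AEMeasurable f μ) : (∫⁻ x, f x ∂μ) ^ 2 ≤ μ univ * ∫⁻ x, f x ^ 2 ∂μ := by
  have h := ENNReal.lintegral_mul_le_Lp_mul_Lq μ Real.HolderConjugate.two_two hf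
    (aemeasurable_const (b := (1 : ℝ≥0∞)))
  have h2 : (∫⁻ x, f x ∂μ) ≤ (∫⁻ x, f x ^ 2 ∂μ) ^ (1 / 2 : ℝ) * (μ univ) ^ (1 / 2 : ℝ) := by
    simpa using h
  calc (∫⁻ x, f x ∂μ) ^ 2 ≤ ((∫⁻ x, f x ^ 2 ∂μ) ^ (1 / 2 : ℝ) * (μ univ) ^ (1 / 2 : ℝ)) ^ 2 := by
        gcongr
    _ = _ := by
        rw [mul_pow, ← ENNReal.rpow_natCast, ← ENNReal.rpow_natCast, ← ENNReal.rpow_mul,
          ← ENNReal.rpow_mul]
        norm_num
        rw [mul_comm]

variable [FiniteDimensional ℝ V] [MeasurableSpace V] [BorelSpace V]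

lemma local_core (hL : StmL) (hD : StmD) (hF : StmF) (hN : StmN) (μ ν : Measure V)
    [IsFiniteMeasure μ] [IsFiniteMeasure ν] (s : ℝ) (hs : (finrank ℝ V : ℝ) + 1 < 2 * s)
    (hμ : Fro μ s) (hν : Fro ν s) (x₀ y₀ : V) (h0 : ⟪x₀, y₀⟫_ℝ ≠ 0) (h1 : 0 < wedge2 x₀ y₀) :
    ∃ r : ℝ, 0 < r ∧ ∀ N : Set ℝ, MeasurableSet N → volume N = 0 →
      (μ.prod ν) ({p : V × V | wedge2 p.1 p.2 ∈ N} ∩ (ball x₀ r ×ˢ ball y₀ r)) = 0 := by
  obtain ⟨r, c, K, hr, hc, hK0, hK, hcN⟩ := hN V x₀ y₀ h0 h1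
  refine ⟨r, hr, ?_⟩
  set m : ℝ := (finrank ℝ V : ℝ) with hm
  have hm0 : 0 ≤ m := by positivity
  have hs0 : 0 < s := by linarith
  set μ' := μ.restrict (ball x₀ r) with hμ'
  set ν' := ν.restrict (ball y₀ r) with hν'
  have hμc : μ' (ball x₀ r)ᶜ = 0 := by
    rw [hμ', Measure.restrict_apply measurableSet_ball.compl]; simp
  have hνc : ν' (ball y₀ r)ᶜ = 0 := by
    rw [hν', Measure.restrict_apply measurableSet_ball.compl]; simp
  set δ : ℝ := (2 * s - m - 1) / (4 * s) with hδ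
  have hδ0 : 0 < δ := by
    rw [hδ]; apply div_pos <;> linarith
  have hδ1 : δ < 1 / 2 := by
    rw [hδ, div_lt_iff₀ (by linarith)]; linarith
  obtain ⟨CL, hCL⟩ := hL V Aop Aop_continuous Aop_symm ν' (ball y₀ r) measurableSet_ball hνc
    K c (2 * r) x₀ hc (by linarith) hK
    (by rw [show 2 * (2 * r) = 4 * r by ring]; exact hcN) s hs0 (hν.restrict _) δ hδ0 hδ1
  obtain ⟨CD, hCD⟩ := hD V Aop Aop_continuous Aop_symm ν' (ball y₀ r) measurableSet_ball hνc
    K r x₀ hr hK0 μ' hμc s hs0 (hμ.restrict _)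
  set p : ℝ := (2 * s - m + 1) / 2 with hp
  have hp1 : 1 < p := by rw [hp]; linarith
  have key : ∀ τ : ℝ, 1 ≤ τ → ∫⁻ x, ‖T Aop ν' τ (fun _ => 1) x‖ₑ ^ 2 ∂μ' ≤
      (CD * CL : ℝ≥0) * ENNReal.ofReal (τ ^ (-p)) := by
    intro τ hτ
    have h := hCD τ hτ _ (fun g hg hg1 => hCL τ hτ g hg hg1) (fun _ => 1) measurable_const
      (fun _ => by simp)
    refine h.trans (le_of_eq ?_)
    have e : ENNReal.ofReal (τ ^ (-p)) = ENNReal.ofReal (τ ^ (m - s)) *
        ENNReal.ofReal (τ ^ (-(s * (1 - 2 * δ)))) := by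
      rw [← ENNReal.ofReal_mul (by positivity), ← Real.rpow_add (by linarith)]
      congr 2
      have : s * δ = (2 * s - m - 1) / 4 := by
        rw [hδ]; field_simp
      rw [hp]
      linarith
    rw [e, ENNReal.coe_mul]
    ring
  -- the push forward
  set lam : Measure ℝ := (μ'.prod ν').map (fun p => wedge2 p.1 p.2) with hlam
  have hmeas : Measurable fun p : V × V => wedge2 p.1 p.2 := wedge2_continuous.measurable
  have hlamac : lam ≪ volume := by
    apply hF lam ((μ' univ).toReal * (CD * CL)) p hp1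
    intro τ hτ
    have e1 : ∫ t, Complex.exp (Complex.I * ((τ * t : ℝ) : ℂ)) ∂lam =
        ∫ x, T Aop ν' τ (fun _ => 1) x ∂μ' := by
      have hcont : Continuous fun t : ℝ => Complex.exp (Complex.I * ((τ * t : ℝ) : ℂ)) := by
        fun_prop
      rw [hlam, integral_map hmeas.aemeasurable hcont.aestronglyMeasurable, integral_prod]
      · simp only [T, inner_Aop, mul_one]
      · apply Integrable.mono' (integrable_const (1 : ℝ))
        · exact (hcont.comp wedge2_continuous).aestronglyMeasurable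
        · refine Eventually.of_forall fun q => ?_
          rw [Complex.norm_exp]
          simp
    rw [e1]
    have hTm : AEMeasurable (fun x => ‖T Aop ν' τ (fun _ => 1) x‖ₑ) μ' := by
      have : StronglyMeasurable fun x => T Aop ν' τ (fun _ => 1) x := by
        unfold T
        apply StronglyMeasurable.integral_prod_right (f := fun x y =>
          Complex.exp (Complex.I * ((τ * ⟪x, Aop y x⟫_ℝ : ℝ) : ℂ)) * 1)
        simp only [inner_Aop]
        apply Continuous.stronglyMeasurable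
        have := wedge2_continuous (V := V)
        unfold Function.uncurry
        fun_prop
      exact this.enorm.aemeasurable
    have h2 : ‖∫ x, T Aop ν' τ (fun _ => 1) x ∂μ'‖ₑ ^ 2 ≤
        μ' univ * ((CD * CL : ℝ≥0) * ENNReal.ofReal (τ ^ (-p))) := by
      calc ‖∫ x, T Aop ν' τ (fun _ => 1) x ∂μ'‖ₑ ^ 2
          ≤ (∫⁻ x, ‖T Aop ν' τ (fun _ => 1) x‖ₑ ∂μ') ^ 2 := by
            gcongr; exact enorm_integral_le_lintegral_enorm _
        _ ≤ μ' univ * ∫⁻ x, ‖T Aop ν' τ (fun _ => 1) x‖ₑ ^ 2 ∂μ' := lintegral_sq_le μ' hTm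
        _ ≤ _ := by gcongr; exact key τ hτ
    have h3 := ENNReal.toReal_mono (by finiteness) h2
    rw [ENNReal.toReal_pow, ENNReal.toReal_mul, ENNReal.toReal_mul, ENNReal.toReal_ofReal
      (by positivity), toReal_enorm] at h3
    refine h3.trans (le_of_eq ?_)
    simp
    ring
  intro N hN hN0
  have h4 : lam N = 0 := hlamac hN0
  rw [hlam, Measure.map_apply hmeas hN, hμ', hν', Measure.prod_restrict,
    Measure.restrict_apply (hmeas hN)] at h4
  exact h4

theorem stmC (hL : StmL) (hD : StmD) (hF : StmF) (hN : StmN) (hO : StmO) : StmC := by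
  intro V _ _ _ _ _ μ ν _ _ s hs hμ hν N hNm hN0
  have h1 := hO V μ ν s (by linarith) hμ hν
  have h2 : (μ.prod ν) {p : V × V | ⟪p.1, p.2⟫_ℝ ≠ 0 ∧ 0 < wedge2 p.1 p.2 ∧ wedge2 p.1 p.2 ∈ N} = 0 := by
    apply measure_null_of_locally_null
    rintro ⟨x₀, y₀⟩ ⟨h0, h1, -⟩
    obtain ⟨r, hr, h⟩ := local_core hL hD hF hN μ ν s hs hμ hν x₀ y₀ h0 h1
    refine ⟨{p : V × V | wedge2 p.1 p.2 ∈ N} ∩ (ball x₀ r ×ˢ ball y₀ r), ?_, h N hNm hN0⟩
    apply inter_mem
    · filter_upwards [self_mem_nhdsWithin] with p hp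
      exact hp.2.2
    · apply mem_nhdsWithin_of_mem_nhds
      exact prod_mem_nhds (ball_mem_nhds _ hr) (ball_mem_nhds _ hr)
  refine measure_mono_null ?_ (measure_union_null h1 h2)
  rintro p ⟨hp1, hp2⟩
  by_cases h : ⟪p.1, p.2⟫_ℝ = 0
  · left; exact h
  · right; exact ⟨h, hp1, hp2⟩

end R257.SV
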