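import Mathlib

/-!
# MP_83cc0d_an : definitions and statements of the parts

Pinned simplex volumes: the push forward of `μ^k` under `(x_1..x_k) ↦ |(x_1-x₀) ∧ ... ∧ (x_k-x₀)|` is
absolutely continuous when `μ` has finite `s`-energy, `s > (d+k-1)/2`.
-/

open MeasureTheory Metric Set Filter Topology Module
open scoped ENNReal NNReal InnerProductSpace

namespace R257.SV

/-- Frostman condition: `μ (B(x,r)) ≤ C r^s` for all balls. -/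
def Fro {V : Type} [NormedAddCommGroup V] [MeasurableSpace V] (μ : Measure V) (s : ℝ) : Prop :=
  ∃ C : ℝ≥0, ∀ (x : V) (r : ℝ), 0 < r → μ (ball x r) ≤ C * ENNReal.ofReal (r ^ s)

/-- The oscillatory integral `T g (x) = ∫ exp (i τ ⟨x, A(y) x⟩) g(y) dν(y)`. -/
noncomputable def T {V : Type} [NormedAddCommGroup V] [InnerProductSpace ℝ V] [MeasurableSpace V]
    (A : V → V →L[ℝ] V) (ν : Measure V) (τ : ℝ) (g : V → ℂ) (x : V) : ℂ :=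
  ∫ y, Complex.exp (Complex.I * ((τ * ⟪x, A y x⟫_ℝ : ℝ) : ℂ)) * g y ∂ν

/-- The operator `A(y) = |y|² I - y yᵀ`, so that `⟨x, A(y) x⟩ = |x|²|y|² - ⟨x,y⟩²`. -/
noncomputable def Aop {V : Type} [NormedAddCommGroup V] [InnerProductSpace ℝ V] (y : V) :
    V →L[ℝ] V :=
  (‖y‖ ^ 2) • ContinuousLinearMap.id ℝ V - (innerSL ℝ y).smulRight y

/-- `|x ∧ y|²` -/
noncomputable def wedge2 {V : Type} [NormedAddCommGroup V] [InnerProductSpace ℝ V] (x y : V) : ℝ :=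
  ‖x‖ ^ 2 * ‖y‖ ^ 2 - ⟪x, y⟫_ℝ ^ 2

/-- Gram determinant `det (⟨v_i, v_j⟩)`, the square of the volume of the parallelepiped. -/
noncomputable def gramDet {V : Type} [NormedAddCommGroup V] [InnerProductSpace ℝ V] {k : ℕ}
    (v : Fin k → V) : ℝ :=
  Matrix.det (Matrix.of fun i j => ⟪v i, v j⟫_ℝ)

/-! ## Statements of the parts -/

/-- PART G (a complex Gaussian integral). -/
def StmG : Prop := ∀ (V : Type) [NormedAddCommGroup V] [InnerProductSpace ℝ V]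
  [FiniteDimensional ℝ V] [MeasurableSpace V] [BorelSpace V] (B : V →L[ℝ] V),
  (∀ x y : V, ⟪B x, y⟫_ℝ = ⟪x, B y⟫_ℝ) → ∀ (z₀ : V) (τ σ : ℝ), 0 < σ →
  ‖∫ z : V, Complex.exp (Complex.I * ((τ * ⟪z, B z⟫_ℝ : ℝ) : ℂ) -
      ((‖z - z₀‖ ^ 2 / (2 * σ ^ 2) : ℝ) : ℂ))‖ ≤
    Real.sqrt (2 * Real.pi * σ ^ 2) ^ (finrank ℝ V) *
      Real.exp (-(2 * σ ^ 2 * τ ^ 2 * ‖B z₀‖ ^ 2) / (1 + 4 * σ ^ 4 * τ ^ 2 * ‖B‖ ^ 2))

/-- PART L (the `L²(dx)` bound). -/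
def StmL : Prop := ∀ (V : Type) [NormedAddCommGroup V] [InnerProductSpace ℝ V]
  [FiniteDimensional ℝ V] [MeasurableSpace V] [BorelSpace V] (A : V → V →L[ℝ] V),
  Continuous A → (∀ y x x' : V, ⟪A y x, x'⟫_ℝ = ⟪x, A y x'⟫_ℝ) →
  ∀ (ν : Measure V) [IsFiniteMeasure ν] (S : Set V), MeasurableSet S → ν Sᶜ = 0 →
  ∀ (K c r : ℝ) (x₀ : V), 0 < c → 0 < r →
  (∀ y ∈ S, ∀ y' ∈ S, ‖A y - A y'‖ ≤ K * ‖y - y'‖) →
  (∀ z ∈ ball x₀ (2 * r), ∀ y ∈ S, ∀ y' ∈ S, c * ‖y - y'‖ ≤ ‖(A y - A y') z‖) →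
  ∀ s : ℝ, 0 < s → Fro ν s → ∀ δ : ℝ, 0 < δ → δ < 1 / 2 →
  ∃ C : ℝ≥0, ∀ τ : ℝ, 1 ≤ τ → ∀ g : V → ℂ, Measurable g → (∀ y, ‖g y‖ ≤ 1) →
    ∫⁻ z in ball x₀ r, ‖T A ν τ g z‖ₑ ^ 2 ≤ C * ENNReal.ofReal (τ ^ (-(s * (1 - 2 * δ))))

/-- PART D (passage from Lebesgue measure to a Frostman measure). -/
def StmD : Prop := ∀ (V : Type) [NormedAddCommGroup V] [InnerProductSpace ℝ V]
  [FiniteDimensional ℝ V] [MeasurableSpace V] [BorelSpace V] (A : V → V →L[ℝ] V),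
  Continuous A → (∀ y x x' : V, ⟪A y x, x'⟫_ℝ = ⟪x, A y x'⟫_ℝ) →
  ∀ (ν : Measure V) [IsFiniteMeasure ν] (S : Set V), MeasurableSet S → ν Sᶜ = 0 →
  ∀ (A₀ r : ℝ) (x₀ : V), 0 < r → (∀ y ∈ S, ‖A y‖ ≤ A₀) →
  ∀ (μ : Measure V) [IsFiniteMeasure μ], μ (ball x₀ r)ᶜ = 0 → ∀ s : ℝ, 0 < s → Fro μ s →
  ∃ C : ℝ≥0, ∀ τ : ℝ, 1 ≤ τ → ∀ X : ℝ≥0∞,
    (∀ g : V → ℂ, Measurable g → (∀ y, ‖g y‖ ≤ 1) →
      ∫⁻ z in ball x₀ (2 * r), ‖T A ν τ g z‖ₑ ^ 2 ≤ X) →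
    ∀ g : V → ℂ, Measurable g → (∀ y, ‖g y‖ ≤ 1) →
      ∫⁻ x, ‖T A ν τ g x‖ₑ ^ 2 ∂μ ≤ C * ENNReal.ofReal (τ ^ ((finrank ℝ V : ℝ) - s)) * X

/-- PART F (square integrable Fourier transform implies absolute continuity). -/
def StmF : Prop := ∀ (lam : Measure ℝ) [IsFiniteMeasure lam] (C p : ℝ), 1 < p →
  (∀ τ : ℝ, 1 ≤ τ →
    ‖∫ t, Complex.exp (Complex.I * ((τ * t : ℝ) : ℂ)) ∂lam‖ ^ 2 ≤ C * τ ^ (-p)) →
  lam ≪ volume

/-- PART N (nondegeneracy of `A(y) = |y|² I - y yᵀ`). -/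
def StmN : Prop := ∀ (V : Type) [NormedAddCommGroup V] [InnerProductSpace ℝ V]
  [FiniteDimensional ℝ V] (x₀ y₀ : V), ⟪x₀, y₀⟫_ℝ ≠ 0 → 0 < wedge2 x₀ y₀ →
  ∃ r c K : ℝ, 0 < r ∧ 0 < c ∧ (∀ y ∈ ball y₀ r, ‖Aop y‖ ≤ K) ∧
    (∀ y ∈ ball y₀ r, ∀ y' ∈ ball y₀ r, ‖Aop y - Aop y'‖ ≤ K * ‖y - y'‖) ∧
    (∀ z ∈ ball x₀ (4 * r), ∀ y ∈ ball y₀ r, ∀ y' ∈ ball y₀ r,
      c * ‖y - y'‖ ≤ ‖(Aop y - Aop y') z‖)

/-- PART E (finite energy implies a countable decomposition into Frostman pieces). -/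
def StmE : Prop := ∀ (V : Type) [NormedAddCommGroup V] [MeasurableSpace V] [BorelSpace V]
  [SecondCountableTopology V] (μ : Measure V) [IsFiniteMeasure μ] (s : ℝ), 0 < s →
  (∫⁻ x, ∫⁻ y, ‖x - y‖ₑ ^ (-s) ∂μ ∂μ < ⊤) →
  ∃ En : ℕ → Set V, (∀ n, MeasurableSet (En n)) ∧ μ (⋃ n, En n)ᶜ = 0 ∧
    ∀ n, Fro (μ.restrict (En n)) s

/-- PART P (orthogonal projection of a Frostman measure of bounded support). -/
def StmP : Prop := ∀ (V : Type) [NormedAddCommGroup V] [InnerProductSpace ℝ V]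
  [FiniteDimensional ℝ V] [MeasurableSpace V] [BorelSpace V] (μ : Measure V) [IsFiniteMeasure μ]
  (s R : ℝ), Fro μ s → μ (closedBall 0 R)ᶜ = 0 → ∀ U : Submodule ℝ V, (finrank ℝ U : ℝ) ≤ s →
  Fro (μ.map (Uᗮ.orthogonalProjectionOnto)) (s - finrank ℝ U)

/-- PART H (small subspaces are null). -/
def StmH : Prop := ∀ (V : Type) [NormedAddCommGroup V] [InnerProductSpace ℝ V]
  [FiniteDimensional ℝ V] [MeasurableSpace V] [BorelSpace V] (μ : Measure V) [IsFiniteMeasure μ]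
  (s : ℝ), Fro μ s → ∀ U : Submodule ℝ V, (finrank ℝ U : ℝ) < s → μ (U : Set V) = 0

/-- PART O (orthogonal pairs are null). -/
def StmO : Prop := ∀ (V : Type) [NormedAddCommGroup V] [InnerProductSpace ℝ V]
  [FiniteDimensional ℝ V] [MeasurableSpace V] [BorelSpace V] (μ ν : Measure V)
  [IsFiniteMeasure μ] [IsFiniteMeasure ν] (s : ℝ), (finrank ℝ V : ℝ) < 2 * s → Fro μ s →
  Fro ν s → (μ.prod ν) {p : V × V | ⟪p.1, p.2⟫_ℝ = 0} = 0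

/-- PART K (factorisation of the Gram determinant). -/
def StmK : Prop := ∀ (V : Type) [NormedAddCommGroup V] [InnerProductSpace ℝ V]
  [FiniteDimensional ℝ V] (j : ℕ),
  (∀ u : Fin j → V, 0 ≤ gramDet u ∧ (0 < gramDet u ↔ LinearIndependent ℝ u)) ∧
  ∀ (u : Fin j → V), LinearIndependent ℝ u → ∀ x y : V,
    gramDet (Fin.cons x (Fin.cons y u : Fin (j + 1) → V) : Fin (j + 2) → V) = gramDet u *
      wedge2 ((Submodule.span ℝ (range u))ᗮ.orthogonalProjectionOnto x)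
        ((Submodule.span ℝ (range u))ᗮ.orthogonalProjectionOnto y)

/-- PART I (almost all `k`-tuples are independent). -/
def StmI : Prop := ∀ (V : Type) [NormedAddCommGroup V] [InnerProductSpace ℝ V]
  [FiniteDimensional ℝ V] [MeasurableSpace V] [BorelSpace V] (μ : Measure V) [IsFiniteMeasure μ]
  (k : ℕ), (∀ U : Submodule ℝ V, finrank ℝ U < k → μ (U : Set V) = 0) →
  (Measure.pi fun _ : Fin k => μ) {v | ¬ LinearIndependent ℝ v} = 0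

/-- PART C (core: the case of two vectors). -/
def StmC : Prop := ∀ (V : Type) [NormedAddCommGroup V] [InnerProductSpace ℝ V]
  [FiniteDimensional ℝ V] [MeasurableSpace V] [BorelSpace V] (μ ν : Measure V)
  [IsFiniteMeasure μ] [IsFiniteMeasure ν] (s : ℝ), (finrank ℝ V : ℝ) + 1 < 2 * s → Fro μ s →
  Fro ν s → ∀ N : Set ℝ, MeasurableSet N → volume N = 0 →
  (μ.prod ν) {p : V × V | 0 < wedge2 p.1 p.2 ∧ wedge2 p.1 p.2 ∈ N} = 0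

end R257.SV
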