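import Pool.Agent.R257.SV.Core

open MeasureTheory Metric Set Filter Topology Module
open scoped ENNReal NNReal InnerProductSpace

namespace R257.SV

lemma gramDet_continuous {V : Type} [NormedAddCommGroup V] [InnerProductSpace ℝ V] {k : ℕ} :
    Continuous (gramDet : (Fin k → V) → ℝ) := by
  unfold gramDet
  apply Continuous.matrix_det
  apply continuous_matrix
  intro i j
  exact (continuous_apply i).inner (continuous_apply j)

section

variable {V : Type} [NormedAddCommGroup V] [InnerProductSpace ℝ V]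
  [FiniteDimensional ℝ V] [MeasurableSpace V] [BorelSpace V]

/-- pieces of bounded support -/
lemma pieces (hE : StmE) (μ : Measure V) [IsFiniteMeasure μ] (s : ℝ) (hs : 0 < s)
    (hI : ∫⁻ x, ∫⁻ y, ‖x - y‖ₑ ^ (-s) ∂μ ∂μ < ⊤) :
    ∃ P : ℕ × ℕ → Set V, (∀ n, MeasurableSet (P n)) ∧ μ (⋃ n, P n)ᶜ = 0 ∧
      (∀ n, Fro (μ.restrict (P n)) s) ∧
      ∀ n, ∃ R : ℝ, (μ.restrict (P n)) (closedBall 0 R)ᶜ = 0 := by
  obtain ⟨En, h1, h2, h3⟩ := hE V μ s hs hI
  refine ⟨fun n => En n.1 ∩ closedBall 0 n.2, fun n => (h1 _).inter measurableSet_closedBall,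
    ?_, ?_, ?_⟩
  · refine measure_mono_null ?_ h2
    intro x hx hx'
    apply hx
    obtain ⟨n, hn⟩ := mem_iUnion.mp hx'
    obtain ⟨N, hN⟩ := exists_nat_ge ‖x‖
    exact mem_iUnion.mpr ⟨(n, N), hn, by simpa using hN⟩
  · intro n
    show Fro (μ.restrict (En n.1 ∩ closedBall 0 n.2)) s
    rw [inter_comm, ← Measure.restrict_restrict measurableSet_closedBall]
    exact (h3 _).restrict _
  · intro n
    refine ⟨n.2, ?_⟩
    rw [Measure.restrict_apply measurableSet_closedBall.compl]
    convert measure_empty (μ := μ)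
    ext x
    simp only [mem_inter_iff, mem_compl_iff, mem_empty_iff_false, iff_false]
    tauto

/-- small subspaces are null -/
lemma subspace_null (hE : StmE) (hH : StmH) (μ : Measure V) [IsFiniteMeasure μ] (s : ℝ) (hs : 0 < s)
    (hI : ∫⁻ x, ∫⁻ y, ‖x - y‖ₑ ^ (-s) ∂μ ∂μ < ⊤) (U : Submodule ℝ V) (hU : (finrank ℝ U : ℝ) < s) :
    μ (U : Set V) = 0 := by
  obtain ⟨P, h1, h2, h3, -⟩ := pieces hE μ s hs hI
  have h : (U : Set V) ⊆ (⋃ n, P n)ᶜ ∪ ⋃ n, ((U : Set V) ∩ P n) := by
    intro x hx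
    by_cases hx' : x ∈ ⋃ n, P n
    · right
      obtain ⟨n, hn⟩ := mem_iUnion.mp hx'
      exact mem_iUnion.mpr ⟨n, hx, hn⟩
    · left; exact hx'
  refine measure_mono_null h (measure_union_null h2 (measure_iUnion_null fun n => ?_))
  have := hH V (μ.restrict (P n)) s (h3 n) U hU
  rwa [Measure.restrict_apply' (h1 n)] at this

/-- two free vectors -/
lemma two_free (hE : StmE) (hP : StmP) (hC : StmC) (hK : StmK) (μ : Measure V) [IsFiniteMeasure μ]
    (s : ℝ) (j : ℕ) (hs : (finrank ℝ V : ℝ) + j + 1 < 2 * s) (hj : j ≤ finrank ℝ V)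
    (hI : ∫⁻ x, ∫⁻ y, ‖x - y‖ₑ ^ (-s) ∂μ ∂μ < ⊤) (u : Fin j → V)
    (N : Set ℝ) (hN : MeasurableSet N) (hN0 : volume N = 0) :
    (μ.prod μ) {p : V × V | 0 < gramDet (Fin.cons p.1 (Fin.cons p.2 u : Fin (j + 1) → V) :
      Fin (j + 2) → V) ∧ gramDet (Fin.cons p.1 (Fin.cons p.2 u : Fin (j + 1) → V) :
      Fin (j + 2) → V) ∈ N} = 0 := by
  have hs0 : 0 < s := by
    have : (0 : ℝ) ≤ (finrank ℝ V : ℝ) + j := by positivity
    linarith
  by_cases hu : LinearIndependent ℝ u
  swap
  · convert measure_empty (μ := μ.prod μ)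
    ext p
    simp only [mem_setOf_eq, mem_empty_iff_false, iff_false, not_and]
    intro h _
    apply hu
    have := ((hK V (j + 2)).1 _).2.mp h
    exact (linearIndependent_finCons.mp (linearIndependent_finCons.mp this).1).1
  · obtain ⟨P, h1, h2, h3, h4⟩ := pieces hE μ s hs0 hI
    set U := Submodule.span ℝ (range u) with hU
    have hUj : finrank ℝ U = j := by
      rw [hU, finrank_span_eq_card hu, Fintype.card_fin]
    have hW : finrank ℝ Uᗮ + j = finrank ℝ V := by
      rw [← hUj, add_comm]; exact Submodule.finrank_add_finrank_orthogonal U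
    set g := gramDet u with hg
    have hg0 : 0 < g := ((hK V j).1 u).2.mpr hu
    have hfac : ∀ p : V × V, gramDet (Fin.cons p.1 (Fin.cons p.2 u : Fin (j + 1) → V) :
        Fin (j + 2) → V) = g * wedge2 (Uᗮ.orthogonalProjectionOnto p.1)
          (Uᗮ.orthogonalProjectionOnto p.2) := fun p => (hK V j).2 u hu p.1 p.2
    simp only [hfac]
    set S : Set (V × V) := {p | 0 < g * wedge2 (Uᗮ.orthogonalProjectionOnto p.1)
          (Uᗮ.orthogonalProjectionOnto p.2) ∧ g * wedge2 (Uᗮ.orthogonalProjectionOnto p.1)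
          (Uᗮ.orthogonalProjectionOnto p.2) ∈ N} with hS
    have hsub : S ⊆ ((⋃ n, P n)ᶜ ×ˢ univ ∪ univ ×ˢ (⋃ n, P n)ᶜ) ∪
        ⋃ n, ⋃ n', S ∩ (P n ×ˢ P n') := by
      rintro ⟨x, y⟩ hxy
      by_cases hx : x ∈ ⋃ n, P n
      · by_cases hy : y ∈ ⋃ n, P n
        · right
          obtain ⟨n, hn⟩ := mem_iUnion.mp hx
          obtain ⟨n', hn'⟩ := mem_iUnion.mp hy
          exact mem_iUnion.mpr ⟨n, mem_iUnion.mpr ⟨n', hxy, hn, hn'⟩⟩
        · left; right; exact ⟨trivial, hy⟩
      · left; left; exact ⟨hx, trivial⟩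
    refine measure_mono_null hsub (measure_union_null (measure_union_null ?_ ?_)
      (measure_iUnion_null fun n => measure_iUnion_null fun n' => ?_))
    · rw [Measure.prod_prod, h2, zero_mul]
    · rw [Measure.prod_prod, h2, mul_zero]
    · -- main part
      have hm : Measurable fun p : V × V => Prod.map (Uᗮ.orthogonalProjectionOnto)
          (Uᗮ.orthogonalProjectionOnto) p := by
        apply Continuous.measurable
        exact Continuous.prodMap (ContinuousLinearMap.continuous _) (ContinuousLinearMap.continuous _)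
      obtain ⟨R, hR⟩ := h4 n
      obtain ⟨R', hR'⟩ := h4 n'
      have hjs : (finrank ℝ U : ℝ) ≤ s := by
        rw [hUj]
        have : (j : ℝ) ≤ finrank ℝ V := by exact_mod_cast hj
        linarith
      have f1 := hP V (μ.restrict (P n)) s R (h3 n) hR U hjs
      have f2 := hP V (μ.restrict (P n')) s R' (h3 n') hR' U hjs
      rw [hUj] at f1 f2
      set N' : Set ℝ := {t | g * t ∈ N} with hN'
      have hN'm : MeasurableSet N' := (measurable_const_mul g) hN
      have hN'0 : volume N' = 0 := by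
        have : N' = (fun t => g * t) ⁻¹' N := rfl
        rw [this, Real.volume_preimage_mul_left hg0.ne', hN0, mul_zero]
      have hcore := hC (↥Uᗮ) ((μ.restrict (P n)).map (Uᗮ.orthogonalProjectionOnto))
        ((μ.restrict (P n')).map (Uᗮ.orthogonalProjectionOnto)) (s - j) (by
          have : (finrank ℝ Uᗮ : ℝ) + j = finrank ℝ V := by exact_mod_cast hW
          linarith) f1 f2 N' hN'm hN'0
      rw [Measure.map_prod_map _ _ (ContinuousLinearMap.continuous _).measurable
        (ContinuousLinearMap.continuous _).measurable, Measure.map_apply hm, Measure.prod_restrict,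
        Measure.restrict_apply'] at hcore
      · refine measure_mono_null ?_ hcore
        rintro p ⟨⟨hp1, hp2⟩, hp3⟩
        refine ⟨⟨?_, hp2⟩, hp3⟩
        exact (pos_iff_pos_of_mul_pos hp1).mp hg0
      · exact (h1 n).prod (h1 n')
      · apply MeasurableSet.inter
        · exact measurableSet_lt measurable_const wedge2_continuous.measurable
        · exact wedge2_continuous.measurable hN'm

/-- the Gram determinant is absolutely continuous -/
lemma gram_null (hE : StmE) (hP : StmP) (hC : StmC) (hK : StmK) (μ : Measure V) [IsFiniteMeasure μ]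
    (s : ℝ) (j : ℕ) (hs : (finrank ℝ V : ℝ) + j + 1 < 2 * s) (hj : j ≤ finrank ℝ V)
    (hI : ∫⁻ x, ∫⁻ y, ‖x - y‖ₑ ^ (-s) ∂μ ∂μ < ⊤)
    (N : Set ℝ) (hN : MeasurableSet N) (hN0 : volume N = 0) :
    (Measure.pi fun _ : Fin (j + 2) => μ) {v | 0 < gramDet v ∧ gramDet v ∈ N} = 0 := by
  set S : Set (Fin (j + 2) → V) := {v | 0 < gramDet v ∧ gramDet v ∈ N} with hS
  have hSm : MeasurableSet S :=
    (measurableSet_lt measurable_const gramDet_continuous.measurable).inter
      (gramDet_continuous.measurable hN)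
  have m1 := (measurePreserving_piFinSuccAbove (fun _ : Fin (j + 2) => μ) 0).symm
  have m2 := (measurePreserving_piFinSuccAbove (fun _ : Fin (j + 1) => μ) 0).symm
  have m3 := (MeasurePreserving.id μ).prod m2
  have m4 := measurePreserving_prodAssoc μ μ (Measure.pi fun _ : Fin j => μ)
  have m5 := (m1.comp m3).comp m4
  rw [← m5.measure_preimage hSm.nullMeasurableSet, Measure.prod_apply_symm (m5.measurable hSm)]
  rw [lintegral_eq_zero_iff']
  · refine Eventually.of_forall fun u => ?_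
    have := two_free hE hP hC hK μ s j hs hj hI u N hN hN0
    refine (congrArg (μ.prod μ) (Set.ext fun p => ?_)).trans this
    have hc : ((MeasurableEquiv.piFinSuccAbove (fun _ : Fin (j + 2) => V) 0).symm
        (p.1, (MeasurableEquiv.piFinSuccAbove (fun _ : Fin (j + 1) => V) 0).symm (p.2, u))) =
        (Fin.cons p.1 (Fin.cons p.2 u : Fin (j + 1) → V) : Fin (j + 2) → V) := by
      simp only [MeasurableEquiv.piFinSuccAbove_symm_apply, Fin.insertNthEquiv, Equiv.coe_fn_mk,
        Fin.insertNth_zero]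
      rfl
    simp only [mem_preimage, mem_setOf_eq, hS]
    rw [← hc]
    rfl
  · exact (measurable_measure_prodMk_right (m5.measurable hSm)).aemeasurable

/-- almost all tuples are independent -/
lemma indep_ae (hE : StmE) (hH : StmH) (hI' : StmI) (hK : StmK) (μ : Measure V) [IsFiniteMeasure μ]
    (s : ℝ) (k : ℕ) (hs : (k : ℝ) - 1 < s) (hs0 : 0 < s)
    (hI : ∫⁻ x, ∫⁻ y, ‖x - y‖ₑ ^ (-s) ∂μ ∂μ < ⊤) :
    (Measure.pi fun _ : Fin k => μ) {v | ¬ 0 < gramDet v} = 0 := by
  have h := hI' V μ k (fun U hU => subspace_null hE hH μ s hs0 hI U (by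
    have : (finrank ℝ U : ℝ) + 1 ≤ k := by exact_mod_cast hU
    linarith))
  simpa only [(hK V k).1 _ |>.2] using h

/-- null sets of volumes -/
lemma vol_null (hE : StmE) (hP : StmP) (hC : StmC) (hK : StmK) (hH : StmH) (hI' : StmI)
    (μ : Measure V) [IsFiniteMeasure μ]
    (s : ℝ) (k : ℕ) (hk : 2 ≤ k) (hkd : k ≤ finrank ℝ V)
    (hs : ((finrank ℝ V : ℝ) + k - 1) / 2 < s)
    (hI : ∫⁻ x, ∫⁻ y, ‖x - y‖ₑ ^ (-s) ∂μ ∂μ < ⊤)
    (N : Set ℝ) (hN0 : volume N = 0) :
    (Measure.pi fun _ : Fin k => μ) {v | Real.sqrt (gramDet v) ∈ N} = 0 := by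
  have hkr : (2 : ℝ) ≤ k := by exact_mod_cast hk
  have hkdr : (k : ℝ) ≤ finrank ℝ V := by exact_mod_cast hkd
  have h1 := indep_ae hE hH hI' hK μ s k (by linarith) (by linarith) hI
  obtain ⟨j, rfl⟩ : ∃ j, k = j + 2 := ⟨k - 2, by omega⟩
  push_cast at hs hkr hkdr
  set N2 : Set ℝ := (fun t => t ^ 2) '' N with hN2
  have hN20 : volume N2 = 0 := by
    apply addHaar_image_eq_zero_of_differentiableOn_of_addHaar_eq_zero _ _ hN0
    fun_prop
  have h2 := gram_null hE hP hC hK μ s j (by linarith) (by omega) hI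
    (toMeasurable volume N2) (measurableSet_toMeasurable _ _) (by rw [measure_toMeasurable, hN20])
  refine measure_mono_null ?_ (measure_union_null h1 h2)
  intro v hv
  by_cases h : 0 < gramDet v
  · right
    refine ⟨h, subset_toMeasurable _ _ ⟨_, hv, ?_⟩⟩
    exact Real.sq_sqrt h.le
  · left; exact h

end

end R257.SV
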