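import Pool.Agent.R257.SV.Defs

/-!
Part D of MP_83cc0d_an (statement `StmD`): from Lebesgue measure to a Frostman measure.
The shift `h` is separated from `y` by expanding the exponential in a power series in the entries of
the matrix `A(y)`; no bootstrap is needed.
-/

open MeasureTheory Metric Set Filter Topology Module
open scoped ENNReal NNReal InnerProductSpace

namespace R257.SV.PD

theorem mul_le_sq (a b : ℝ≥0∞) : a * b ≤ a ^ 2 + b ^ 2 := by
  rcases le_total a b with h | h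
  · calc a * b ≤ b * b := mul_le_mul_left h b
      _ = b ^ 2 := (sq b).symm
      _ ≤ a ^ 2 + b ^ 2 := le_add_self
  · calc a * b ≤ a * a := mul_le_mul_right h a
      _ = a ^ 2 := (sq a).symm
      _ ≤ a ^ 2 + b ^ 2 := le_self_add

/-- Cauchy-Schwarz with a factor 2 -/
theorem cs {J : Type} (w f : J → ℝ≥0∞) :
    (∑' j, w j * f j) ^ 2 ≤ 2 * (∑' j, w j) * ∑' j, w j * f j ^ 2 := by
  calc (∑' j, w j * f j) ^ 2 = ∑' i, ∑' j, (w i * f i) * (w j * f j) := by
        rw [sq, ← ENNReal.tsum_mul_right]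
        refine tsum_congr fun i => ?_
        rw [ENNReal.tsum_mul_left]
    _ ≤ ∑' i, ∑' j, ((w i * f i ^ 2) * w j + w i * (w j * f j ^ 2)) := by
        refine ENNReal.tsum_le_tsum fun i => ENNReal.tsum_le_tsum fun j => ?_
        calc (w i * f i) * (w j * f j) = (w i * w j) * (f i * f j) := by ring
          _ ≤ (w i * w j) * (f i ^ 2 + f j ^ 2) := mul_le_mul_right (mul_le_sq _ _) _
          _ = _ := by ring
    _ = 2 * (∑' j, w j) * ∑' j, w j * f j ^ 2 := by
        have h1 : ∀ i, ∑' j, ((w i * f i ^ 2) * w j + w i * (w j * f j ^ 2)) =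
            (w i * f i ^ 2) * (∑' j, w j) + w i * ∑' j, w j * f j ^ 2 := by
          intro i
          rw [ENNReal.tsum_add, ENNReal.tsum_mul_left, ENNReal.tsum_mul_left]
        simp_rw [h1]
        rw [ENNReal.tsum_add, ENNReal.tsum_mul_right, ENNReal.tsum_mul_right]
        ring

/-- expansion of the exponential -/
theorem expand {Ω : Type} [MeasurableSpace Ω] (ν : Measure Ω) [IsFiniteMeasure ν] {ι : Type}
    [Fintype ι] (k g : Ω → ℂ) (hk : Measurable k) (hk1 : ∀ y, ‖k y‖ ≤ 1) (hg : Measurable g)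
    (hg1 : ∀ y, ‖g y‖ ≤ 1) (a : ι → Ω → ℝ) (ha : ∀ i, Measurable (a i))
    (ha1 : ∀ i y, |a i y| ≤ 1) (c : ι → ℝ) (lam : ℝ) (hlam : 0 ≤ lam) (hc : ∀ i, |c i| ≤ lam) :
    ‖∫ y, k y * (Complex.exp (∑ i, (-Complex.I * (c i : ℂ)) * (a i y : ℂ)) * g y) ∂ν‖ₑ ≤
      ∑' n : ℕ, ∑ P : Fin n → ι, ENNReal.ofReal (lam ^ n / (n.factorial : ℝ)) *
        ‖∫ y, k y * (g y * ∏ j, (a (P j) y : ℂ)) ∂ν‖ₑ := by
  classical
  set z : Ω → ℂ := fun y => ∑ i, (-Complex.I * (c i : ℂ)) * (a i y : ℂ) with hz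
  set Lam : ℝ := Fintype.card ι * lam with hLam
  have hzn : ∀ y, ‖z y‖ ≤ Lam := by
    intro y
    calc ‖z y‖ ≤ ∑ i, ‖(-Complex.I * (c i : ℂ)) * (a i y : ℂ)‖ := norm_sum_le _ _
      _ ≤ ∑ _i : ι, lam := by
          refine Finset.sum_le_sum fun i _ => ?_
          rw [norm_mul, norm_mul, norm_neg, Complex.norm_I, one_mul, Complex.norm_real,
            Complex.norm_real, Real.norm_eq_abs, Real.norm_eq_abs]
          calc |c i| * |a i y| ≤ lam * 1 := mul_le_mul (hc i) (ha1 i y) (abs_nonneg _) hlam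
            _ = lam := mul_one _
      _ = Lam := by rw [Finset.sum_const, nsmul_eq_mul, hLam, Finset.card_univ]
  have hzm : Measurable z := by
    rw [hz]
    refine Finset.measurable_sum _ fun i _ => ?_
    exact measurable_const.mul (Complex.measurable_ofReal.comp (ha i))
  set F : ℕ → Ω → ℂ := fun n y => k y * (z y ^ n / (n.factorial : ℂ) * g y) with hF
  have hFm : ∀ n, Measurable (F n) := fun n => hk.mul (((hzm.pow_const n).div_const _).mul hg)
  have hFn : ∀ n y, ‖F n y‖ ≤ Lam ^ n / (n.factorial : ℝ) := by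
    intro n y
    rw [hF]
    simp only
    rw [norm_mul, norm_mul, norm_div, norm_pow, Complex.norm_natCast]
    have h0 : 0 ≤ ‖z y‖ ^ n / (n.factorial : ℝ) := by positivity
    calc ‖k y‖ * (‖z y‖ ^ n / (n.factorial : ℝ) * ‖g y‖)
        ≤ 1 * (‖z y‖ ^ n / (n.factorial : ℝ) * 1) := by
          refine mul_le_mul (hk1 y) ?_ (by positivity) zero_le_one
          exact mul_le_mul_of_nonneg_left (hg1 y) h0
      _ = ‖z y‖ ^ n / (n.factorial : ℝ) := by ring
      _ ≤ Lam ^ n / (n.factorial : ℝ) := by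
          refine div_le_div_of_nonneg_right ?_ (by positivity)
          exact pow_le_pow_left₀ (norm_nonneg _) (hzn y) n
  have hFi : ∀ n, Integrable (F n) ν := by
    intro n
    refine Integrable.mono' (integrable_const (Lam ^ n / (n.factorial : ℝ)))
      (hFm n).aestronglyMeasurable (Filter.Eventually.of_forall (hFn n))
  have hFs : Summable fun n => ∫ y, ‖F n y‖ ∂ν := by
    refine Summable.of_nonneg_of_le (fun n => integral_nonneg fun y => norm_nonneg _) (fun n => ?_)
      ((Real.summable_pow_div_factorial Lam).mul_left (ν.real univ))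
    calc ∫ y, ‖F n y‖ ∂ν ≤ ∫ _y, Lam ^ n / (n.factorial : ℝ) ∂ν :=
          integral_mono (hFi n).norm (integrable_const _) (hFn n)
      _ = ν.real univ * (Lam ^ n / (n.factorial : ℝ)) := by
          rw [integral_const, smul_eq_mul]
  have hsum := hasSum_integral_of_summable_integral_norm hFi hFs
  have hexp : ∀ y, ∑' n, F n y = k y * (Complex.exp (z y) * g y) := by
    intro y
    have h1 : HasSum (fun n : ℕ => z y ^ n / (n.factorial : ℂ)) (Complex.exp (z y)) := by
      have := NormedSpace.expSeries_div_hasSum_exp (z y)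
      rwa [← Complex.exp_eq_exp_ℂ] at this
    exact ((h1.mul_right (g y)).mul_left (k y)).tsum_eq
  simp_rw [hexp] at hsum
  rw [← hsum.tsum_eq]
  refine enorm_tsum_le_tsum_enorm.trans (ENNReal.tsum_le_tsum fun n => ?_)
  -- the n-th term
  have hpow : ∀ y, F n y = ∑ P : Fin n → ι, ((∏ j, (-Complex.I * (c (P j) : ℂ))) /
      (n.factorial : ℂ)) * (k y * (g y * ∏ j, (a (P j) y : ℂ))) := by
    intro y
    rw [hF]
    simp only
    rw [hz]
    simp only
    rw [Fintype.sum_pow, Finset.sum_div, Finset.sum_mul, Finset.mul_sum]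
    refine Finset.sum_congr rfl fun P _ => ?_
    rw [Finset.prod_mul_distrib]
    ring
  have hint : ∀ P : Fin n → ι, Integrable (fun y => k y * (g y * ∏ j, (a (P j) y : ℂ))) ν := by
    intro P
    have hm : Measurable fun y => k y * (g y * ∏ j, (a (P j) y : ℂ)) := by
      refine hk.mul (hg.mul ?_)
      exact Finset.measurable_prod _ fun j _ => Complex.measurable_ofReal.comp (ha (P j))
    refine Integrable.mono' (integrable_const (1 : ℝ)) hm.aestronglyMeasurable
      (Filter.Eventually.of_forall fun y => ?_)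
    rw [norm_mul, norm_mul, norm_prod]
    have h1 : ∏ j, ‖(a (P j) y : ℂ)‖ ≤ 1 := by
      refine Finset.prod_le_one (fun j _ => norm_nonneg _) fun j _ => ?_
      rw [Complex.norm_real, Real.norm_eq_abs]
      exact ha1 _ _
    have h2 : 0 ≤ ∏ j, ‖(a (P j) y : ℂ)‖ := Finset.prod_nonneg fun j _ => norm_nonneg _
    have h3 : ‖g y‖ * ∏ j, ‖(a (P j) y : ℂ)‖ ≤ 1 := mul_le_one₀ (hg1 y) h2 h1
    exact mul_le_one₀ (hk1 y) (by positivity) h3
  simp_rw [hpow]
  rw [integral_finsetSum _ fun P _ => (hint P).const_mul _]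
  refine (enorm_sum_le _ _).trans (Finset.sum_le_sum fun P _ => ?_)
  rw [integral_const_mul, enorm_mul]
  refine mul_le_mul_left ?_ _
  rw [← ofReal_norm]
  refine ENNReal.ofReal_le_ofReal ?_
  rw [norm_div, Complex.norm_natCast, norm_prod]
  refine div_le_div_of_nonneg_right ?_ (by positivity)
  calc ∏ j, ‖-Complex.I * (c (P j) : ℂ)‖ ≤ ∏ _j : Fin n, lam := by
        refine Finset.prod_le_prod (fun j _ => norm_nonneg _) fun j _ => ?_
        rw [norm_mul, norm_neg, Complex.norm_I, one_mul, Complex.norm_real, Real.norm_eq_abs]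
        exact hc _
    _ = lam ^ n := by simp

variable {V : Type} [NormedAddCommGroup V] [InnerProductSpace ℝ V] [FiniteDimensional ℝ V]
  [MeasurableSpace V] [BorelSpace V]

/-- the phase factor -/
noncomputable def ker (A : V → V →L[ℝ] V) (τ : ℝ) (x y : V) : ℂ :=
  Complex.exp (Complex.I * ((τ * ⟪x, A y x⟫_ℝ : ℝ) : ℂ))

omit [FiniteDimensional ℝ V] [MeasurableSpace V] [BorelSpace V] in
theorem norm_ker (A : V → V →L[ℝ] V) (τ : ℝ) (x y : V) : ‖ker A τ x y‖ = 1 := by
  rw [ker, mul_comm]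
  exact Complex.norm_exp_ofReal_mul_I _

omit [FiniteDimensional ℝ V] [MeasurableSpace V] [BorelSpace V] in
theorem continuous_ker {A : V → V →L[ℝ] V} (hA : Continuous A) (τ : ℝ) :
    Continuous fun p : V × V => ker A τ p.1 p.2 := by
  unfold ker
  have h1 : Continuous fun p : V × V => A p.2 p.1 :=
    (hA.comp continuous_snd).clm_apply continuous_fst
  have h2 : Continuous fun p : V × V => ⟪p.1, A p.2 p.1⟫_ℝ := continuous_fst.inner h1
  exact Complex.continuous_exp.comp
    (continuous_const.mul (Complex.continuous_ofReal.comp (continuous_const.mul h2)))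

theorem measurable_T {A : V → V →L[ℝ] V} (hA : Continuous A) (ν : Measure V) [IsFiniteMeasure ν]
    (τ : ℝ) {g : V → ℂ} (hg : Measurable g) : Measurable (T A ν τ g) := by
  have h1 : Measurable fun p : V × V => ker A τ p.1 p.2 * g p.2 :=
    (continuous_ker hA τ).measurable.mul (hg.comp measurable_snd)
  have h2 := h1.stronglyMeasurable.integral_prod_right' (ν := ν)
  exact h2.measurable

/-- the modified function `g_P` -/
noncomputable def gP {m n : ℕ} (a : Fin m × Fin m → V → ℝ) (g : V → ℂ)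
    (P : Fin n → Fin m × Fin m) (y : V) : ℂ := g y * ∏ j, (a (P j) y : ℂ)

/-- separation of the shift -/
theorem shift {A : V → V →L[ℝ] V} (hA : Continuous A)
    (hsym : ∀ y x x' : V, ⟪A y x, x'⟫_ℝ = ⟪x, A y x'⟫_ℝ) (ν : Measure V) [IsFiniteMeasure ν]
    {S : Set V} (hνS : ν Sᶜ = 0) {A₁ r R : ℝ} (hA₁ : 0 < A₁) (hR : 0 ≤ R) (hr : 0 < r)
    (a : Fin (finrank ℝ V) × Fin (finrank ℝ V) → V → ℝ) (ha : ∀ i, Measurable (a i))
    (ha1 : ∀ i y, |a i y| ≤ 1)
    (haS : ∀ y ∈ S, ∀ i, A₁ * a i y = ⟪stdOrthonormalBasis ℝ V i.1,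
      A y (stdOrthonormalBasis ℝ V i.2)⟫_ℝ)
    {τ : ℝ} (hτ : 1 ≤ τ) {g : V → ℂ} (hg : Measurable g) (hg1 : ∀ y, ‖g y‖ ≤ 1) {x h : V}
    (hx : ‖x‖ ≤ R) (hh : ‖h‖ ≤ r / τ) :
    ‖T A ν τ g x‖ₑ ≤ ∑' n : ℕ, ∑ P : Fin n → Fin (finrank ℝ V) × Fin (finrank ℝ V),
      ENNReal.ofReal ((A₁ * (2 * R + r) * r) ^ n / (n.factorial : ℝ)) *
        ‖T A ν τ (gP a g P) (x + h)‖ₑ := by
  set b := stdOrthonormalBasis ℝ V with hb
  have hτ0 : 0 < τ := lt_of_lt_of_le one_pos hτ
  set c : Fin (finrank ℝ V) × Fin (finrank ℝ V) → ℝ := fun i =>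
    τ * A₁ * (⟪b i.1, (2 : ℝ) • x + h⟫_ℝ * ⟪b i.2, h⟫_ℝ) with hc
  have hhr : ‖h‖ ≤ r := hh.trans (div_le_self hr.le hτ)
  have hcb : ∀ i, |c i| ≤ A₁ * (2 * R + r) * r := by
    intro i
    rw [hc]
    simp only
    rw [abs_mul, abs_mul, abs_mul, abs_of_pos hτ0, abs_of_pos hA₁]
    have h1 : |⟪b i.1, (2 : ℝ) • x + h⟫_ℝ| ≤ 2 * R + r := by
      calc |⟪b i.1, (2 : ℝ) • x + h⟫_ℝ| ≤ ‖b i.1‖ * ‖(2 : ℝ) • x + h‖ := abs_real_inner_le_norm _ _
        _ = ‖(2 : ℝ) • x + h‖ := by rw [b.norm_eq_one, one_mul]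
        _ ≤ ‖(2 : ℝ) • x‖ + ‖h‖ := norm_add_le _ _
        _ ≤ 2 * R + r := by
            rw [norm_smul, Real.norm_eq_abs, abs_of_pos (by norm_num : (0 : ℝ) < 2)]
            linarith
    have h2 : |⟪b i.2, h⟫_ℝ| ≤ r / τ := by
      calc |⟪b i.2, h⟫_ℝ| ≤ ‖b i.2‖ * ‖h‖ := abs_real_inner_le_norm _ _
        _ = ‖h‖ := by rw [b.norm_eq_one, one_mul]
        _ ≤ r / τ := hh
    calc τ * A₁ * (|⟪b i.1, (2 : ℝ) • x + h⟫_ℝ| * |⟪b i.2, h⟫_ℝ|)
        ≤ τ * A₁ * ((2 * R + r) * (r / τ)) := by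
          refine mul_le_mul_of_nonneg_left ?_ (by positivity)
          exact mul_le_mul h1 h2 (abs_nonneg _) (by positivity)
      _ = A₁ * (2 * R + r) * r := by field_simp
  have key : T A ν τ g x = ∫ y, ker A τ (x + h) y *
      (Complex.exp (∑ i, (-Complex.I * (c i : ℂ)) * (a i y : ℂ)) * g y) ∂ν := by
    unfold T
    refine integral_congr_ae ?_
    have hS : ∀ᵐ y ∂ν, y ∈ S := by
      rw [ae_iff]
      exact hνS
    filter_upwards [hS] with y hy
    have h1 : ∑ i, c i * a i y = τ * ⟪(2 : ℝ) • x + h, A y h⟫_ℝ := by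
      have h2 : ∀ i, c i * a i y = τ * (⟪(2 : ℝ) • x + h, b i.1⟫_ℝ * (⟪b i.2, h⟫_ℝ *
          ⟪b i.1, A y (b i.2)⟫_ℝ)) := by
        intro i
        rw [hc]
        simp only
        rw [← haS y hy i, real_inner_comm (b i.1)]
        ring
      simp_rw [h2]
      rw [← Finset.mul_sum, Fintype.sum_prod_type]
      simp_rw [← Finset.mul_sum]
      congr 1
      have h3 : ∀ p, ∑ q, ⟪b q, h⟫_ℝ * ⟪b p, A y (b q)⟫_ℝ = ⟪b p, A y h⟫_ℝ := by
        intro p
        have h4 : h = ∑ q, ⟪b q, h⟫_ℝ • b q := (b.sum_repr' h).symm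
        conv_rhs => rw [h4]
        rw [map_sum, inner_sum]
        refine Finset.sum_congr rfl fun q _ => ?_
        rw [map_smul, inner_smul_right]
      simp_rw [h3]
      rw [OrthonormalBasis.sum_inner_mul_inner]
    have h5 : ∑ i, (-Complex.I * (c i : ℂ)) * (a i y : ℂ) =
        -Complex.I * ((τ * ⟪(2 : ℝ) • x + h, A y h⟫_ℝ : ℝ) : ℂ) := by
      rw [← h1]
      push_cast
      rw [Finset.mul_sum]
      refine Finset.sum_congr rfl fun i _ => ?_
      ring
    rw [h5, ker, ← mul_assoc, ← Complex.exp_add]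
    congr 2
    rw [neg_mul, ← sub_eq_add_neg, ← mul_sub, ← Complex.ofReal_sub]
    congr 2
    rw [map_add, inner_add_left, inner_add_left, inner_add_right, inner_add_right,
      inner_smul_left]
    have h6 : ⟪h, A y x⟫_ℝ = ⟪x, A y h⟫_ℝ := by rw [← hsym, real_inner_comm]
    rw [h6]
    simp
    ring
  rw [key]
  have hk : Measurable fun y => ker A τ (x + h) y :=
    ((continuous_ker hA τ).comp (continuous_const.prodMk continuous_id)).measurable
  exact expand ν (fun y => ker A τ (x + h) y) g hk (fun y => (norm_ker A τ _ y).le) hg hg1 a ha ha1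
    c _ (by positivity) hcb

end R257.SV.PD

namespace R257.SV

open PD

theorem stmD : StmD := by
  intro V _ _ _ _ _ A hA hsym ν _ S hS hνS A₀ r x₀ hr hA₀ μ _ hμ s hs hfro
  classical
  obtain ⟨Cμ, hCμ⟩ := hfro
  set m := finrank ℝ V with hm
  set b := stdOrthonormalBasis ℝ V with hb
  set A₁ : ℝ := |A₀| + 1 with hA₁d
  have hA₁ : 0 < A₁ := by positivity
  set a : Fin m × Fin m → V → ℝ := fun i =>
    S.indicator (fun y => ⟪b i.1, A y (b i.2)⟫_ℝ / A₁) with had
  have ha : ∀ i, Measurable (a i) := by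
    intro i
    refine Measurable.indicator ?_ hS
    have h1 : Continuous fun y => ⟪b i.1, A y (b i.2)⟫_ℝ :=
      continuous_const.inner (hA.clm_apply continuous_const)
    exact h1.measurable.div_const _
  have ha1 : ∀ i y, |a i y| ≤ 1 := by
    intro i y
    by_cases hy : y ∈ S
    · rw [had]
      simp only
      rw [indicator_of_mem hy, abs_div, abs_of_pos hA₁, div_le_one hA₁]
      calc |⟪b i.1, A y (b i.2)⟫_ℝ| ≤ ‖b i.1‖ * ‖A y (b i.2)‖ := abs_real_inner_le_norm _ _
        _ ≤ 1 * (‖A y‖ * ‖b i.2‖) := by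
            rw [b.norm_eq_one]
            exact mul_le_mul_of_nonneg_left ((A y).le_opNorm _) zero_le_one
        _ = ‖A y‖ := by rw [b.norm_eq_one]; ring
        _ ≤ A₀ := hA₀ y hy
        _ ≤ A₁ := by rw [hA₁d]; linarith [le_abs_self A₀]
    · rw [had]
      simp only
      rw [indicator_of_notMem hy]
      simp
  have haS : ∀ y ∈ S, ∀ i, A₁ * a i y = ⟪b i.1, A y (b i.2)⟫_ℝ := by
    intro y hy i
    rw [had]
    simp only
    rw [indicator_of_mem hy]
    field_simp
  set R : ℝ := ‖x₀‖ + r with hR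
  have hR0 : 0 ≤ R := by positivity
  set lam : ℝ := A₁ * (2 * R + r) * r with hlam
  have hlam0 : 0 ≤ lam := by positivity
  -- the weights
  let J : Type := (n : ℕ) × (Fin n → Fin m × Fin m)
  set w : J → ℝ≥0∞ := fun p => ENNReal.ofReal (lam ^ p.1 / (p.1.factorial : ℝ)) with hw
  set E : ℝ≥0∞ := ∑' p, w p with hE
  have hEtop : E ≠ ⊤ := by
    have h1 : E = ∑' n : ℕ, ENNReal.ofReal
        (((Fintype.card (Fin m × Fin m) : ℝ) * lam) ^ n / (n.factorial : ℝ)) := by
      rw [hE, hw]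
      rw [ENNReal.tsum_sigma (fun (n : ℕ) (_ : Fin n → Fin m × Fin m) =>
        ENNReal.ofReal (lam ^ n / (n.factorial : ℝ)))]
      refine tsum_congr fun n => ?_
      rw [tsum_fintype, Finset.sum_const, nsmul_eq_mul, Finset.card_univ, Fintype.card_fun,
        Fintype.card_fin, ← ENNReal.ofReal_natCast, ← ENNReal.ofReal_mul (by positivity)]
      congr 1
      push_cast
      ring
    rw [h1, ← ENNReal.ofReal_tsum_of_nonneg (fun n => by positivity)
      (Real.summable_pow_div_factorial _)]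
    exact ENNReal.ofReal_ne_top
  set v1 : ℝ≥0∞ := volume (ball (0 : V) 1) with hv1
  have hv10 : v1 ≠ 0 := (measure_ball_pos volume (0 : V) one_pos).ne'
  have hv1t : v1 ≠ ⊤ := measure_ball_lt_top.ne
  set K : ℝ≥0∞ := 2 * E * E * Cμ * ENNReal.ofReal (r ^ (s - (m : ℝ))) / v1 with hK
  have hKt : K ≠ ⊤ := by
    refine ENNReal.div_ne_top ?_ hv10
    exact ENNReal.mul_ne_top (ENNReal.mul_ne_top (ENNReal.mul_ne_top
      (ENNReal.mul_ne_top (by norm_num) hEtop) hEtop) ENNReal.coe_ne_top) ENNReal.ofReal_ne_top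
  refine ⟨K.toNNReal, fun τ hτ X hX g hg hg1 => ?_⟩
  rw [ENNReal.coe_toNNReal hKt]
  have hτ0 : 0 < τ := lt_of_lt_of_le one_pos hτ
  set ρ : ℝ := r / τ with hρd
  have hρ : 0 < ρ := by positivity
  have hρr : ρ ≤ r := div_le_self hr.le hτ
  have hgm : ∀ p : J, Measurable (gP a g p.2) := by
    intro p
    unfold gP
    refine hg.mul ?_
    exact Finset.measurable_prod _ fun j _ => Complex.measurable_ofReal.comp (ha (p.2 j))
  have hgb : ∀ p : J, ∀ y, ‖gP a g p.2 y‖ ≤ 1 := by
    intro p y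
    unfold gP
    rw [norm_mul, norm_prod]
    have h1 : ∏ j, ‖(a (p.2 j) y : ℂ)‖ ≤ 1 := by
      refine Finset.prod_le_one (fun j _ => norm_nonneg _) fun j _ => ?_
      rw [Complex.norm_real, Real.norm_eq_abs]
      exact ha1 _ _
    exact mul_le_one₀ (hg1 y) (Finset.prod_nonneg fun j _ => norm_nonneg _) h1
  set F : J → V → ℝ≥0∞ := fun p z => ‖T A ν τ (gP a g p.2) z‖ₑ ^ 2 with hF
  have hFm : ∀ p, Measurable (F p) := fun p => (measurable_T hA ν τ (hgm p)).enorm.pow_const 2
  -- (a)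
  have h1 : ∀ x ∈ ball x₀ r, ∀ h ∈ ball (0 : V) ρ,
      ‖T A ν τ g x‖ₑ ^ 2 ≤ 2 * E * ∑' p, w p * F p (x + h) := by
    intro x hx h hh
    have hxR : ‖x‖ ≤ R := by
      rw [mem_ball, dist_eq_norm] at hx
      have : ‖x‖ ≤ ‖x - x₀‖ + ‖x₀‖ := by
        simpa using norm_add_le (x - x₀) x₀
      rw [hR]; linarith
    have hhρ : ‖h‖ ≤ r / τ := by
      rw [mem_ball, dist_zero_right] at hh
      exact hh.le
    have h2 := shift hA hsym ν hνS hA₁ hR0 hr a ha ha1 haS hτ hg hg1 hxR hhρ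
    have h3 : (∑' n : ℕ, ∑ P : Fin n → Fin (finrank ℝ V) × Fin (finrank ℝ V),
        ENNReal.ofReal ((A₁ * (2 * R + r) * r) ^ n / (n.factorial : ℝ)) *
        ‖T A ν τ (gP a g P) (x + h)‖ₑ) = ∑' p : J, w p * ‖T A ν τ (gP a g p.2) (x + h)‖ₑ := by
      rw [ENNReal.tsum_sigma']
      refine tsum_congr fun n => ?_
      rw [tsum_fintype]
    rw [h3] at h2
    calc ‖T A ν τ g x‖ₑ ^ 2 ≤ (∑' p : J, w p * ‖T A ν τ (gP a g p.2) (x + h)‖ₑ) ^ 2 :=
          pow_le_pow_left' h2 2
      _ ≤ _ := cs w _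
  -- (b)
  set H : J → V → ℝ≥0∞ := fun p x => ∫⁻ z, (ball x ρ).indicator (F p) z with hH
  have h2 : ∀ x ∈ ball x₀ r, volume (ball (0 : V) ρ) * ‖T A ν τ g x‖ₑ ^ 2 ≤
      2 * E * ∑' p, w p * H p x := by
    intro x hx
    have h3 : ∀ p, ∫⁻ h in ball (0 : V) ρ, F p (x + h) = H p x := by
      intro p
      rw [← lintegral_indicator measurableSet_ball]
      have h4 : ∀ h, (ball (0 : V) ρ).indicator (fun h => F p (x + h)) h =
          (fun z => (ball x ρ).indicator (F p) z) (x + h) := by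
        intro h
        by_cases hh : h ∈ ball (0 : V) ρ
        · have hh' : x + h ∈ ball x ρ := by
            rw [mem_ball, dist_eq_norm]
            rw [mem_ball, dist_zero_right] at hh
            simpa using hh
          simp only
          rw [indicator_of_mem hh, indicator_of_mem hh']
        · have hh' : x + h ∉ ball x ρ := by
            rw [mem_ball, dist_eq_norm]
            rw [mem_ball, dist_zero_right] at hh
            simpa using hh
          simp only
          rw [indicator_of_notMem hh, indicator_of_notMem hh']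
      simp_rw [h4]
      exact lintegral_add_left_eq_self (fun z => (ball x ρ).indicator (F p) z) x
    calc volume (ball (0 : V) ρ) * ‖T A ν τ g x‖ₑ ^ 2
        = ∫⁻ _h in ball (0 : V) ρ, ‖T A ν τ g x‖ₑ ^ 2 := by rw [setLIntegral_const, mul_comm]
      _ ≤ ∫⁻ h in ball (0 : V) ρ, 2 * E * ∑' p, w p * F p (x + h) :=
          setLIntegral_mono' measurableSet_ball fun h hh => h1 x hx h hh
      _ = 2 * E * ∫⁻ h in ball (0 : V) ρ, ∑' p, w p * F p (x + h) := by
          rw [lintegral_const_mul' _ _ (ENNReal.mul_ne_top (by norm_num) hEtop)]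
      _ = 2 * E * ∑' p, w p * H p x := by
          congr 1
          rw [lintegral_tsum]
          · refine tsum_congr fun p => ?_
            rw [lintegral_const_mul' _ _ (by rw [hw]; exact ENNReal.ofReal_ne_top), h3 p]
          · intro p
            exact (((hFm p).comp (measurable_const_add x)).const_mul _).aemeasurable
  -- (c)
  have hD : MeasurableSet {q : V × V | dist q.2 q.1 < ρ} :=
    (isOpen_lt (continuous_snd.dist continuous_fst) continuous_const).measurableSet
  have hHeq : ∀ p x, H p x = ∫⁻ z, {q : V × V | dist q.2 q.1 < ρ}.indicator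
      (fun q => F p q.2) (x, z) := by
    intro p x
    rw [hH]
    simp only
    refine lintegral_congr fun z => ?_
    by_cases hz : dist z x < ρ
    · rw [indicator_of_mem (show z ∈ ball x ρ from hz), indicator_of_mem (show (x, z) ∈
        {q : V × V | dist q.2 q.1 < ρ} from hz)]
    · rw [indicator_of_notMem (show z ∉ ball x ρ from hz), indicator_of_notMem (show (x, z) ∉
        {q : V × V | dist q.2 q.1 < ρ} from hz)]
  have hindm : ∀ p, Measurable ({q : V × V | dist q.2 q.1 < ρ}.indicator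
      (fun q => F p q.2)) := fun p => ((hFm p).comp measurable_snd).indicator hD
  have hHm : ∀ p, Measurable (H p) := by
    intro p
    have : H p = fun x => ∫⁻ z, {q : V × V | dist q.2 q.1 < ρ}.indicator
      (fun q => F p q.2) (x, z) := funext (hHeq p)
    rw [this]
    exact (hindm p).lintegral_prod_right'
  have h3 : ∀ p, ∫⁻ x, H p x ∂μ ≤ X * (Cμ * ENNReal.ofReal (ρ ^ s)) := by
    intro p
    simp_rw [hHeq p]
    rw [lintegral_lintegral_swap (by exact (hindm p).aemeasurable)]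
    have h4 : ∀ z, ∫⁻ x, {q : V × V | dist q.2 q.1 < ρ}.indicator
        (fun q => F p q.2) (x, z) ∂μ = F p z * μ (ball z ρ) := by
      intro z
      have h5 : ∀ x, {q : V × V | dist q.2 q.1 < ρ}.indicator
          (fun q => F p q.2) (x, z) = (ball z ρ).indicator (fun _ => F p z) x := by
        intro x
        by_cases hz : dist z x < ρ
        · rw [indicator_of_mem (show x ∈ ball z ρ by rw [mem_ball, dist_comm]; exact hz),
            indicator_of_mem (show (x, z) ∈ {q : V × V | dist q.2 q.1 < ρ} from hz)]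
        · rw [indicator_of_notMem (show x ∉ ball z ρ by rw [mem_ball, dist_comm]; exact hz),
            indicator_of_notMem (show (x, z) ∉ {q : V × V | dist q.2 q.1 < ρ} from hz)]
      simp_rw [h5]
      rw [lintegral_indicator_const measurableSet_ball]
    simp_rw [h4]
    calc ∫⁻ z, F p z * μ (ball z ρ)
        ≤ ∫⁻ z, (ball x₀ (2 * r)).indicator (fun z => F p z * (Cμ * ENNReal.ofReal (ρ ^ s))) z := by
          refine lintegral_mono fun z => ?_
          by_cases hz : z ∈ ball x₀ (2 * r)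
          · simp only
            rw [indicator_of_mem hz]
            exact mul_le_mul_right (hCμ z ρ hρ) _
          · have h6 : μ (ball z ρ) = 0 := by
              refine measure_mono_null ?_ hμ
              intro x hx
              rw [mem_compl_iff, mem_ball, not_lt]
              rw [mem_ball, not_lt] at hz
              rw [mem_ball] at hx
              have := dist_triangle z x x₀
              rw [dist_comm z x] at this
              linarith
            simp only
            rw [h6, mul_zero]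
            exact zero_le
      _ = ∫⁻ z in ball x₀ (2 * r), F p z * (Cμ * ENNReal.ofReal (ρ ^ s)) := by
          rw [lintegral_indicator measurableSet_ball]
      _ = (∫⁻ z in ball x₀ (2 * r), F p z) * (Cμ * ENNReal.ofReal (ρ ^ s)) := by
          rw [lintegral_mul_const _ (hFm p)]
      _ ≤ X * (Cμ * ENNReal.ofReal (ρ ^ s)) :=
          mul_le_mul_left (hX _ (hgm p) (hgb p)) _
  have h4 : volume (ball (0 : V) ρ) * ∫⁻ x, ‖T A ν τ g x‖ₑ ^ 2 ∂μ ≤
      2 * E * (E * (X * (Cμ * ENNReal.ofReal (ρ ^ s)))) := by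
    calc volume (ball (0 : V) ρ) * ∫⁻ x, ‖T A ν τ g x‖ₑ ^ 2 ∂μ
        = ∫⁻ x, volume (ball (0 : V) ρ) * ‖T A ν τ g x‖ₑ ^ 2 ∂μ := by
          rw [lintegral_const_mul' _ _ measure_ball_lt_top.ne]
      _ ≤ ∫⁻ x, 2 * E * ∑' p, w p * H p x ∂μ := by
          refine lintegral_mono_ae ?_
          have hb' : ∀ᵐ x ∂μ, x ∈ ball x₀ r := by rw [ae_iff]; exact hμ
          filter_upwards [hb'] with x hx using h2 x hx
      _ = 2 * E * ∑' p, w p * ∫⁻ x, H p x ∂μ := by
          rw [lintegral_const_mul' _ _ (ENNReal.mul_ne_top (by norm_num) hEtop)]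
          congr 1
          rw [lintegral_tsum]
          · refine tsum_congr fun p => ?_
            rw [lintegral_const_mul' _ _ (by rw [hw]; exact ENNReal.ofReal_ne_top)]
          · intro p
            exact ((hHm p).const_mul _).aemeasurable
      _ ≤ 2 * E * ∑' p, w p * (X * (Cμ * ENNReal.ofReal (ρ ^ s))) := by
          refine mul_le_mul_right ?_ _
          exact ENNReal.tsum_le_tsum fun p => mul_le_mul_right (h3 p) _
      _ = _ := by rw [ENNReal.tsum_mul_right]
  -- the final computation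
  have h5 : volume (ball (0 : V) ρ) = ENNReal.ofReal (ρ ^ m) * v1 := by
    rw [Measure.addHaar_ball_of_pos volume (0 : V) hρ]
  have h6 : ENNReal.ofReal (ρ ^ s) = ENNReal.ofReal (ρ ^ m) *
      (ENNReal.ofReal (r ^ (s - (m : ℝ))) * ENNReal.ofReal (τ ^ ((m : ℝ) - s))) := by
    rw [← ENNReal.ofReal_mul (by positivity), ← ENNReal.ofReal_mul (by positivity)]
    congr 1
    have h7 : ρ ^ s = ρ ^ m * ρ ^ (s - (m : ℝ)) := by
      rw [← Real.rpow_natCast, ← Real.rpow_add hρ]
      congr 1; ring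
    rw [h7, hρd, Real.div_rpow hr.le hτ0.le, div_eq_mul_inv (r ^ (s - (m : ℝ))),
      ← Real.rpow_neg hτ0.le, neg_sub]
  set I : ℝ≥0∞ := ∫⁻ x, ‖T A ν τ g x‖ₑ ^ 2 ∂μ with hI
  rw [h5, h6] at h4
  have hρm0 : ENNReal.ofReal (ρ ^ m) ≠ 0 := by
    rw [Ne, ENNReal.ofReal_eq_zero, not_le]; positivity
  have h7 : I * v1 ≤ 2 * E * E * Cμ * ENNReal.ofReal (r ^ (s - (m : ℝ))) *
      ENNReal.ofReal (τ ^ ((m : ℝ) - s)) * X := by
    rw [← ENNReal.mul_le_mul_iff_right hρm0 ENNReal.ofReal_ne_top]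
    calc ENNReal.ofReal (ρ ^ m) * (I * v1) = ENNReal.ofReal (ρ ^ m) * v1 * I := by ring
      _ ≤ _ := h4
      _ = _ := by ring
  have h8 := (ENNReal.le_div_iff_mul_le (Or.inl hv10) (Or.inl hv1t)).2 h7
  refine h8.trans (le_of_eq ?_)
  rw [hK, div_eq_mul_inv, div_eq_mul_inv]
  ring

end R257.SV
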