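import Pool.Agent.R257.SV.Defs

open MeasureTheory Metric Set Filter Topology Module
open scoped ENNReal NNReal InnerProductSpace

namespace R257.SV

theorem stmE : StmE := by
  intro V _ _ _ _ μ _ s hs hfin
  have hm2 : Measurable (fun p : V × V => ‖p.1 - p.2‖ₑ ^ (-s)) :=
    ((measurable_fst.sub measurable_snd).enorm).pow_const _
  have hm : Measurable (fun x : V => ∫⁻ y, ‖x - y‖ₑ ^ (-s) ∂μ) :=
    Measurable.lintegral_prod_right' (f := fun p : V × V => ‖p.1 - p.2‖ₑ ^ (-s)) hm2
  refine ⟨fun n => {x | ∫⁻ y, ‖x - y‖ₑ ^ (-s) ∂μ ≤ (n : ℝ≥0∞)}, ?_, ?_, ?_⟩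
  · intro n
    exact measurableSet_le hm measurable_const
  · have h1 : ∀ᵐ x ∂μ, ∫⁻ y, ‖x - y‖ₑ ^ (-s) ∂μ < ⊤ := ae_lt_top hm hfin.ne
    rw [ae_iff] at h1
    refine measure_mono_null ?_ h1
    intro x hx hlt
    apply hx
    obtain ⟨n, hn⟩ := ENNReal.exists_nat_gt hlt.ne
    rw [mem_iUnion]
    exact ⟨n, hn.le⟩
  · intro n
    refine ⟨(n : ℝ≥0) * (2 : ℝ≥0) ^ s, ?_⟩
    intro x r hr
    rw [Measure.restrict_apply measurableSet_ball]
    rcases (ball x r ∩ {x | ∫⁻ y, ‖x - y‖ₑ ^ (-s) ∂μ ≤ (n : ℝ≥0∞)}).eq_empty_or_nonempty with he | ⟨z, hz1, hz2⟩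
    · rw [he, measure_empty]; exact zero_le
    · have hsub : ball x r ⊆ ball z (2 * r) := by
        intro y hy
        rw [mem_ball] at *
        calc dist y z ≤ dist y x + dist x z := dist_triangle _ _ _
          _ < r + r := by rw [dist_comm x z]; linarith
          _ = 2 * r := by ring
      have h2r : ENNReal.ofReal (2 * r) ≠ 0 := by
        rw [Ne, ENNReal.ofReal_eq_zero, not_le]; positivity
      have h1 : (ENNReal.ofReal (2 * r)) ^ (-s) * μ (ball z (2 * r)) ≤ (n : ℝ≥0∞) := by
        calc (ENNReal.ofReal (2 * r)) ^ (-s) * μ (ball z (2 * r))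
            = ∫⁻ y in ball z (2 * r), (ENNReal.ofReal (2 * r)) ^ (-s) ∂μ := by
              rw [setLIntegral_const]
          _ ≤ ∫⁻ y in ball z (2 * r), ‖z - y‖ₑ ^ (-s) ∂μ := by
              apply setLIntegral_mono' measurableSet_ball
              intro y hy
              rw [ENNReal.rpow_neg, ENNReal.rpow_neg]
              apply ENNReal.inv_le_inv.mpr
              apply ENNReal.rpow_le_rpow _ hs.le
              rw [← ofReal_norm]
              apply ENNReal.ofReal_le_ofReal
              rw [mem_ball, dist_comm, dist_eq_norm] at hy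
              exact hy.le
          _ ≤ ∫⁻ y, ‖z - y‖ₑ ^ (-s) ∂μ := setLIntegral_le_lintegral _ _
          _ ≤ n := hz2
      calc μ (ball x r ∩ {x | ∫⁻ y, ‖x - y‖ₑ ^ (-s) ∂μ ≤ (n : ℝ≥0∞)})
          ≤ μ (ball z (2 * r)) := measure_mono (inter_subset_left.trans hsub)
        _ = (ENNReal.ofReal (2 * r)) ^ s * ((ENNReal.ofReal (2 * r)) ^ (-s) * μ (ball z (2 * r))) := by
            rw [← mul_assoc, ← ENNReal.rpow_add _ _ h2r ENNReal.ofReal_ne_top]
            simp
        _ ≤ (ENNReal.ofReal (2 * r)) ^ s * n := by gcongr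
        _ = (((n : ℝ≥0) * (2 : ℝ≥0) ^ s : ℝ≥0) : ℝ≥0∞) * ENNReal.ofReal (r ^ s) := by
            rw [ENNReal.ofReal_rpow_of_pos (by positivity), Real.mul_rpow (by norm_num) hr.le,
              ENNReal.ofReal_mul (by positivity), ENNReal.coe_mul,
              ENNReal.coe_rpow_of_nonneg _ hs.le, ← ENNReal.ofReal_rpow_of_pos (by norm_num)]
            simp
            ring

theorem stmP : StmP := by
  intro V _ _ _ _ _ μ _ s R hF hR U hUs
  obtain ⟨C, hC⟩ := hF
  have hs0 : 0 ≤ s - finrank ℝ U := by linarith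
  have hs : 0 ≤ s := le_trans (Nat.cast_nonneg _) hUs
  set ν : Measure U := volume with hν
  set q : V →L[ℝ] U := U.orthogonalProjectionOnto with hq
  set π : V →L[ℝ] Uᗮ := Uᗮ.orthogonalProjectionOnto with hπ
  have hdec : ∀ x : V, ((q x : U) : V) + ((π x : Uᗮ) : V) = x := by
    intro x
    exact U.starProjection_add_starProjection_orthogonal x
  have hqle : ∀ x : V, ‖q x‖ ≤ ‖x‖ := fun x => U.norm_orthogonalProjectionOnto_apply_le x
  have hb1 : ν (ball 0 1) ≠ 0 := (measure_ball_pos ν 0 one_pos).ne'
  have hb2 : ν (ball 0 1) ≠ ⊤ := measure_ball_lt_top.ne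
  have hb3 : ν (ball 0 (R + 1)) ≠ ⊤ := measure_ball_lt_top.ne
  set D : ℝ≥0∞ := ν (ball 0 (R + 1)) / ν (ball 0 1) * C * ENNReal.ofReal (2 ^ s) + μ univ with hD
  have hDtop : D ≠ ⊤ := by
    rw [hD]
    refine ENNReal.add_ne_top.mpr ⟨?_, measure_ne_top _ _⟩
    refine ENNReal.mul_ne_top (ENNReal.mul_ne_top (ENNReal.div_ne_top hb3 hb1) ENNReal.coe_ne_top)
      ENNReal.ofReal_ne_top
  refine ⟨D.toNNReal, ?_⟩
  intro w r hr
  rw [ENNReal.coe_toNNReal hDtop]
  rw [Measure.map_apply π.continuous.measurable measurableSet_ball]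
  rcases le_or_gt r 1 with hr1 | hr1
  · -- main case
    set Q : Set V := (π ⁻¹' ball w r) ∩ closedBall 0 R with hQ
    have hQm : MeasurableSet Q := (π.continuous.measurable measurableSet_ball).inter measurableSet_closedBall
    have hμQ : μ (π ⁻¹' ball w r) = μ Q := by
      apply le_antisymm
      · calc μ (π ⁻¹' ball w r) ≤ μ (Q ∪ (closedBall 0 R)ᶜ) := by
              apply measure_mono
              intro x hx
              by_cases hxR : x ∈ closedBall (0 : V) R
              · exact Or.inl ⟨hx, hxR⟩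
              · exact Or.inr hxR
          _ ≤ μ Q + μ (closedBall 0 R)ᶜ := measure_union_le _ _
          _ = μ Q := by rw [hR, add_zero]
      · exact measure_mono inter_subset_left
    rw [hμQ]
    set S : Set (V × U) := {z | z.1 ∈ Q ∧ dist z.2 (q z.1) < r} with hS
    have hSm : MeasurableSet S := by
      apply MeasurableSet.inter (measurable_fst hQm)
      exact measurableSet_lt (measurable_snd.dist (q.continuous.measurable.comp measurable_fst))
        measurable_const
    have h1 : ν (ball 0 r) * μ Q ≤ (μ.prod ν) S := by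
      rw [Measure.prod_apply hSm]
      calc ν (ball 0 r) * μ Q = ∫⁻ x in Q, ν (ball 0 r) ∂μ := by rw [setLIntegral_const]
        _ = ∫⁻ x, Q.indicator (fun _ => ν (ball 0 r)) x ∂μ := by
            rw [lintegral_indicator hQm]
        _ ≤ ∫⁻ x, ν (Prod.mk x ⁻¹' S) ∂μ := by
            apply lintegral_mono
            intro x
            by_cases hx : x ∈ Q
            · rw [indicator_of_mem hx]
              have : Prod.mk x ⁻¹' S = ball (q x) r := by
                ext p
                simp only [hS, mem_preimage, mem_ofPred_eq, mem_ball, hx, true_and]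
              beta_reduce
              rw [this]
              have h5 : ν (ball (q x) r) = ν (ball 0 r) := Measure.addHaar_ball_center ν (q x) r
              rw [h5]
            · rw [indicator_of_notMem hx]; exact zero_le
    have h2 : (μ.prod ν) S ≤ ν (ball 0 (R + 1)) * (C * ENNReal.ofReal ((2 * r) ^ s)) := by
      rw [Measure.prod_apply_symm hSm]
      calc ∫⁻ p, μ ((fun x => (x, p)) ⁻¹' S) ∂ν
          ≤ ∫⁻ p, (ball (0 : U) (R + 1)).indicator (fun _ => C * ENNReal.ofReal ((2 * r) ^ s)) p ∂ν := by
            apply lintegral_mono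
            intro p
            by_cases hp : p ∈ ball (0 : U) (R + 1)
            · rw [indicator_of_mem hp]
              refine le_trans (measure_mono ?_) (hC ((w : V) + (p : V)) (2 * r) (by positivity))
              rintro x ⟨⟨hx1, _⟩, hx3⟩
              rw [mem_ball, dist_eq_norm]
              have e1 : x - ((w : V) + (p : V)) = (((q x : U) : V) - (p : V)) + (((π x : Uᗮ) : V) - (w : V)) := by
                conv_lhs => rw [← hdec x]
                abel
              rw [e1]
              have e2 : ‖((q x : U) : V) - (p : V)‖ < r := by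
                rw [dist_comm, dist_eq_norm] at hx3
                simpa using hx3
              have e3 : ‖((π x : Uᗮ) : V) - (w : V)‖ < r := by
                rw [mem_preimage, mem_ball, dist_eq_norm] at hx1
                simpa using hx1
              calc _ ≤ ‖((q x : U) : V) - (p : V)‖ + ‖((π x : Uᗮ) : V) - (w : V)‖ := norm_add_le _ _
                _ < 2 * r := by linarith
            · rw [indicator_of_notMem hp]
              have : (fun x => (x, p)) ⁻¹' S = ∅ := by
                rw [eq_empty_iff_forall_notMem]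
                rintro x ⟨⟨_, hx2⟩, hx3⟩
                apply hp
                rw [mem_ball, dist_zero_right]
                have e1 : ‖x‖ ≤ R := by simpa using hx2
                have e2 : ‖p‖ ≤ ‖p - q x‖ + ‖q x‖ := by
                  have := norm_add_le (p - q x) (q x)
                  simpa using this
                have e3 := hqle x
                have e4 : ‖p - q x‖ < r := by
                  have := hx3
                  simpa [dist_eq_norm] using this
                linarith
              beta_reduce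
              rw [this, measure_empty]
        _ = ν (ball 0 (R + 1)) * (C * ENNReal.ofReal ((2 * r) ^ s)) := by
            rw [lintegral_indicator measurableSet_ball, setLIntegral_const, mul_comm]
    have h3 : ν (ball 0 r) = ENNReal.ofReal (r ^ (finrank ℝ U)) * ν (ball 0 1) :=
      Measure.addHaar_ball_of_pos ν 0 hr
    have h4 : ENNReal.ofReal (r ^ (finrank ℝ U)) * ν (ball 0 1) * μ Q ≤
        ν (ball 0 (R + 1)) * (C * ENNReal.ofReal ((2 * r) ^ s)) := by
      rw [← h3]; exact h1.trans h2
    have hrj : 0 < r ^ (finrank ℝ U) := by positivity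
    have hrj' : ENNReal.ofReal (r ^ (finrank ℝ U)) ≠ 0 := by
      rw [Ne, ENNReal.ofReal_eq_zero, not_le]; exact hrj
    have e5 : ENNReal.ofReal ((2 * r) ^ s) = ENNReal.ofReal (r ^ (finrank ℝ U)) *
        (ENNReal.ofReal (2 ^ s) * ENNReal.ofReal (r ^ (s - finrank ℝ U))) := by
      rw [← ENNReal.ofReal_mul (by positivity), ← ENNReal.ofReal_mul (by positivity)]
      congr 1
      rw [Real.mul_rpow (by norm_num) hr.le, Real.rpow_sub hr, Real.rpow_natCast]
      field_simp
    have hmul : (ENNReal.ofReal (r ^ (finrank ℝ U)) * ν (ball 0 1)) * μ Q ≤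
        (ENNReal.ofReal (r ^ (finrank ℝ U)) * ν (ball 0 1)) *
          (ν (ball 0 (R + 1)) / ν (ball 0 1) * C * ENNReal.ofReal (2 ^ s) *
            ENNReal.ofReal (r ^ (s - finrank ℝ U))) := by
      refine h4.trans (le_of_eq ?_)
      rw [e5]
      have e6 : ν (ball 0 1) * (ν (ball 0 (R + 1)) / ν (ball 0 1)) = ν (ball 0 (R + 1)) :=
        ENNReal.mul_div_cancel hb1 hb2
      calc ν (ball 0 (R + 1)) * (C * (ENNReal.ofReal (r ^ (finrank ℝ U)) *
            (ENNReal.ofReal (2 ^ s) * ENNReal.ofReal (r ^ (s - finrank ℝ U)))))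
          = (ν (ball 0 1) * (ν (ball 0 (R + 1)) / ν (ball 0 1))) * (C * (ENNReal.ofReal (r ^ (finrank ℝ U)) *
            (ENNReal.ofReal (2 ^ s) * ENNReal.ofReal (r ^ (s - finrank ℝ U))))) := by rw [e6]
        _ = _ := by ring
    have h6 : μ Q ≤ ν (ball 0 (R + 1)) / ν (ball 0 1) * C * ENNReal.ofReal (2 ^ s) *
            ENNReal.ofReal (r ^ (s - finrank ℝ U)) := by
      rwa [ENNReal.mul_le_mul_iff_right (mul_ne_zero hrj' hb1)
        (ENNReal.mul_ne_top ENNReal.ofReal_ne_top hb2)] at hmul
    refine h6.trans ?_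
    rw [hD, add_mul]
    exact le_self_add
  · calc μ (π ⁻¹' ball w r) ≤ μ univ := measure_mono (subset_univ _)
      _ = μ univ * 1 := (mul_one _).symm
      _ ≤ D * ENNReal.ofReal (r ^ (s - finrank ℝ U)) := by
          gcongr
          · rw [hD]; exact le_add_self
          · rw [← ENNReal.ofReal_one]
            apply ENNReal.ofReal_le_ofReal
            exact Real.one_le_rpow hr1.le hs0

theorem stmH : StmH := by
  intro V _ _ _ _ _ μ _ s hF U hU
  have hn : ∀ n : ℕ, μ ((U : Set V) ∩ closedBall 0 (n : ℝ)) = 0 := by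
    intro n
    set μn := μ.restrict (closedBall (0 : V) (n : ℝ)) with hμn
    have hF' : Fro μn s := by
      obtain ⟨C, hC⟩ := hF
      refine ⟨C, fun x r hr => ?_⟩
      exact (Measure.restrict_apply_le _ _).trans (hC x r hr)
    have hR : μn (closedBall 0 (n : ℝ))ᶜ = 0 := by
      rw [hμn, Measure.restrict_apply measurableSet_closedBall.compl]
      simp
    obtain ⟨C, hC⟩ := stmP V μn s n hF' hR U hU.le
    have hUm : MeasurableSet (U : Set V) := (Submodule.closed_of_finiteDimensional U).measurableSet
    have h1 : ∀ r : ℝ, 0 < r → μn (U : Set V) ≤ C * ENNReal.ofReal (r ^ (s - finrank ℝ U)) := by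
      intro r hr
      refine le_trans ?_ (hC 0 r hr)
      rw [Measure.map_apply (Uᗮ.orthogonalProjectionOnto).continuous.measurable measurableSet_ball]
      apply measure_mono
      intro x hx
      rw [mem_preimage, mem_ball, dist_zero_right]
      have : Uᗮ.orthogonalProjectionOnto x = 0 := by
        rw [Submodule.orthogonalProjectionOnto_eq_zero_iff]
        rw [Submodule.orthogonal_orthogonal]
        exact hx
      rw [this, norm_zero]
      exact hr
    have hpos : 0 < s - finrank ℝ U := by linarith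
    have ht : Tendsto (fun r : ℝ => (C : ℝ≥0∞) * ENNReal.ofReal (r ^ (s - finrank ℝ U))) (𝓝[>] 0)
        (𝓝 0) := by
      have h2 : Tendsto (fun r : ℝ => r ^ (s - finrank ℝ U)) (𝓝[>] 0) (𝓝 0) := by
        have h3 := (Real.continuousAt_rpow_const 0 (s - finrank ℝ U) (Or.inr hpos.le)).tendsto
        rw [Real.zero_rpow hpos.ne'] at h3
        exact h3.mono_left nhdsWithin_le_nhds
      have h4 := ENNReal.Tendsto.const_mul (a := (C : ℝ≥0∞)) (ENNReal.tendsto_ofReal h2)
        (Or.inr ENNReal.coe_ne_top)
      simpa using h4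
    have h5 : μn (U : Set V) ≤ 0 :=
      ge_of_tendsto ht (by
        filter_upwards [self_mem_nhdsWithin] with r hr
        exact h1 r hr)
    rw [hμn, Measure.restrict_apply hUm] at h5
    exact le_antisymm h5 zero_le
  have hU2 : (U : Set V) ⊆ ⋃ n : ℕ, (U : Set V) ∩ closedBall 0 (n : ℝ) := by
    intro x hx
    rw [mem_iUnion]
    obtain ⟨n, hn⟩ := exists_nat_ge ‖x‖
    exact ⟨n, hx, by simpa using hn⟩
  exact measure_mono_null hU2 (measure_iUnion_null hn)

end R257.SV
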