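import Pool.Agent.R257.SV.Defs

/-!
# MP_83cc0d_an, part F: a finite measure with square integrable Fourier transform is absolutely
continuous
-/

open MeasureTheory Metric Set Filter Topology Module
open scoped ENNReal NNReal InnerProductSpace SchwartzMap FourierTransform ContDiff

namespace R257.SV

/-- the Fourier transform of the measure -/
noncomputable def Lh (lam : Measure ℝ) (ξ : ℝ) : ℂ :=
  ∫ t, Complex.exp ((((2 * Real.pi * (ξ * t) : ℝ)) : ℂ) * Complex.I) ∂lam

lemma norm_e (x : ℝ) : ‖Complex.exp ((x : ℂ) * Complex.I)‖ = 1 := Complex.norm_exp_ofReal_mul_I x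

lemma Lh_cont (lam : Measure ℝ) [IsFiniteMeasure lam] : Continuous (Lh lam) := by
  unfold Lh
  apply continuous_of_dominated (bound := fun _ => 1)
  · intro x
    apply Continuous.aestronglyMeasurable
    fun_prop
  · intro x
    filter_upwards with t
    rw [norm_e]
  · exact integrable_const _
  · filter_upwards with t
    fun_prop

lemma Lh_le (lam : Measure ℝ) [IsFiniteMeasure lam] (ξ : ℝ) : ‖Lh lam ξ‖ ≤ lam.real univ := by
  unfold Lh
  refine (norm_integral_le_integral_norm _).trans ?_
  simp only [norm_e]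
  simp

lemma Lh_neg (lam : Measure ℝ) [IsFiniteMeasure lam] (ξ : ℝ) : ‖Lh lam (-ξ)‖ = ‖Lh lam ξ‖ := by
  have : Lh lam (-ξ) = (starRingEnd ℂ) (Lh lam ξ) := by
    unfold Lh
    rw [← integral_conj]
    congr 1
    ext t
    rw [← Complex.exp_conj, map_mul, Complex.conj_I, Complex.conj_ofReal]
    congr 1
    push_cast
    ring
  rw [this, RCLike.norm_conj]

lemma Lh_integrable (lam : Measure ℝ) [IsFiniteMeasure lam] (C p : ℝ) (hp : 1 < p)
    (h : ∀ τ : ℝ, 1 ≤ τ →
      ‖∫ t, Complex.exp (Complex.I * ((τ * t : ℝ) : ℂ)) ∂lam‖ ^ 2 ≤ C * τ ^ (-p)) :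
    Integrable (fun ξ => ‖Lh lam ξ‖ ^ 2) := by
  have hC : 0 ≤ C := by
    have := h 1 le_rfl
    rw [Real.one_rpow, mul_one] at this
    exact le_trans (by positivity) this
  set m := lam.real univ with hm
  have hm0 : 0 ≤ m := measureReal_nonneg
  have hI : Integrable (fun x : ℝ => (1 + ‖x‖) ^ (-p)) := integrable_one_add_norm (by simpa using hp)
  refine Integrable.mono' (hI.const_mul (m ^ 2 * 2 ^ p + C))
    ((Lh_cont lam).norm.pow 2).aestronglyMeasurable ?_
  filter_upwards with ξ
  rw [Real.norm_of_nonneg (by positivity)]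
  -- for nonnegative argument
  have key : ∀ x : ℝ, 0 ≤ x → ‖Lh lam x‖ ^ 2 ≤ (m ^ 2 * 2 ^ p + C) * (1 + x) ^ (-p) := by
    intro x hx
    rcases le_total x 1 with h1 | h1
    · have e1 : ‖Lh lam x‖ ^ 2 ≤ m ^ 2 := by
        apply pow_le_pow_left₀ (norm_nonneg _) (Lh_le lam x)
      have e2 : 1 ≤ 2 ^ p * (1 + x) ^ (-p) := by
        rw [Real.rpow_neg (by linarith), ← div_eq_mul_inv, one_le_div (by positivity)]
        exact Real.rpow_le_rpow (by linarith) (by linarith) (by linarith)
      have e3 : 0 ≤ C * (1 + x) ^ (-p) := by positivity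
      calc ‖Lh lam x‖ ^ 2 ≤ m ^ 2 * 1 := by rw [mul_one]; exact e1
        _ ≤ m ^ 2 * (2 ^ p * (1 + x) ^ (-p)) := by gcongr
        _ ≤ (m ^ 2 * 2 ^ p + C) * (1 + x) ^ (-p) := by linarith
    · have hpi := Real.pi_gt_three
      have e1 := h (2 * Real.pi * x) (by nlinarith)
      have e2 : ∫ t, Complex.exp (Complex.I * ((2 * Real.pi * x * t : ℝ) : ℂ)) ∂lam = Lh lam x := by
        unfold Lh
        congr 1
        ext t
        rw [mul_comm Complex.I, mul_assoc (2 * Real.pi) x t]
      rw [e2] at e1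
      have e3 : (2 * Real.pi * x) ^ (-p) ≤ (1 + x) ^ (-p) := by
        apply Real.rpow_le_rpow_of_nonpos (by linarith) (by nlinarith) (by linarith)
      calc ‖Lh lam x‖ ^ 2 ≤ C * (2 * Real.pi * x) ^ (-p) := e1
        _ ≤ C * (1 + x) ^ (-p) := by gcongr
        _ ≤ (m ^ 2 * 2 ^ p + C) * (1 + x) ^ (-p) := by
          have : 0 ≤ m ^ 2 * 2 ^ p * (1 + x) ^ (-p) := by positivity
          linarith
  rcases le_total 0 ξ with h1 | h1
  · rw [Real.norm_of_nonneg h1]
    exact key ξ h1
  · rw [Real.norm_of_nonpos h1, ← Lh_neg]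
    exact key (-ξ) (by linarith)

lemma key_schwartz (lam : Measure ℝ) [IsFiniteMeasure lam] (f : 𝓢(ℝ, ℂ)) :
    ∫ t, f t ∂lam = ∫ v, Lh lam v * 𝓕 f v := by
  have e1 : ∀ t : ℝ, f t = ∫ v, Complex.exp ((((2 * Real.pi * (v * t) : ℝ)) : ℂ) * Complex.I) *
      𝓕 f v := by
    intro t
    have h1 : f t = 𝓕⁻ (𝓕 f) t := by
      rw [FourierTransform.fourierInv_fourier_eq]
    rw [h1, SchwartzMap.fourierInv_coe, Real.fourierInv_eq']
    congr 1
    ext v
    rw [smul_eq_mul]
    congr 4
    simp [mul_comm]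
  have e2 : Integrable (Function.uncurry fun t v : ℝ =>
      Complex.exp ((((2 * Real.pi * (v * t) : ℝ)) : ℂ) * Complex.I) * 𝓕 f v)
      (lam.prod volume) := by
    have h1 : Integrable (fun z : ℝ × ℝ => ‖𝓕 f z.2‖) (lam.prod volume) :=
      ((𝓕 f).integrable.norm).comp_snd lam
    refine Integrable.mono' h1 ?_ ?_
    · apply Continuous.aestronglyMeasurable
      have := (𝓕 f).continuous
      unfold Function.uncurry
      fun_prop
    · filter_upwards with z
      simp only [Function.uncurry]
      rw [norm_mul, norm_e, one_mul]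
  calc ∫ t, f t ∂lam = ∫ t, (∫ v, Complex.exp ((((2 * Real.pi * (v * t) : ℝ)) : ℂ) * Complex.I) *
      𝓕 f v) ∂lam := integral_congr_ae (Eventually.of_forall e1)
    _ = ∫ v, (∫ t, Complex.exp ((((2 * Real.pi * (v * t) : ℝ)) : ℂ) * Complex.I) *
      𝓕 f v ∂lam) := integral_integral_swap e2
    _ = ∫ v, Lh lam v * 𝓕 f v := by
        congr 1
        ext v
        rw [integral_mul_const]
        rfl

lemma bound_schwartz (lam : Measure ℝ) [IsFiniteMeasure lam]
    (hL : Integrable (fun ξ => ‖Lh lam ξ‖ ^ 2)) (f : 𝓢(ℝ, ℂ)) (a : ℝ) (ha : 0 < a) :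
    ‖∫ t, f t ∂lam‖ ≤ a * (∫ x, ‖f x‖ ^ 2) + (∫ ξ, ‖Lh lam ξ‖ ^ 2) / a := by
  rw [key_schwartz]
  refine (norm_integral_le_integral_norm _).trans ?_
  rw [← SchwartzMap.integral_norm_sq_fourier f]
  have hF : Integrable (fun ξ => ‖𝓕 f ξ‖ ^ 2) := by
    have := (SchwartzMap.memLp (𝓕 f) 2 volume)
    have h2 := this.integrable_norm_rpow (by norm_num) (by norm_num)
    simpa using h2
  rw [← integral_const_mul, ← integral_div, ← integral_add (hF.const_mul a) (hL.div_const a)]
  apply integral_mono_of_nonneg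
  · filter_upwards with v
    positivity
  · exact (hF.const_mul a).add (hL.div_const a)
  · filter_upwards with v
    simp only [norm_mul]
    have h1 : 0 ≤ ‖𝓕 f v‖ := norm_nonneg _
    have h2 : 0 ≤ ‖Lh lam v‖ := norm_nonneg _
    have h3 : a * ‖𝓕 f v‖ ^ 2 + ‖Lh lam v‖ ^ 2 / a - ‖Lh lam v‖ * ‖𝓕 f v‖ =
        ((a * ‖𝓕 f v‖ - ‖Lh lam v‖ / 2) ^ 2 + 3 / 4 * ‖Lh lam v‖ ^ 2) / a := by
      field_simp
      ring
    have h4 : 0 ≤ ((a * ‖𝓕 f v‖ - ‖Lh lam v‖ / 2) ^ 2 + 3 / 4 * ‖Lh lam v‖ ^ 2) / a := by
      positivity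
    linarith

/-- bound for bounded open sets -/
lemma bound_open (lam : Measure ℝ) [IsFiniteMeasure lam]
    (hL : Integrable (fun ξ => ‖Lh lam ξ‖ ^ 2)) (U : Set ℝ) (hU : IsOpen U)
    (hb : Bornology.IsBounded U) (a : ℝ) (ha : 0 < a) :
    lam.real U ≤ a * (volume.real U) + (∫ ξ, ‖Lh lam ξ‖ ^ 2) / a := by
  obtain ⟨f, hfs, hfd, hfr⟩ := hU.exists_contDiff_support_eq (n := ⊤)
  have hf0 : ∀ x, 0 ≤ f x := fun x => (hfr (mem_range_self x)).1
  set φ : ℕ → ℝ → ℝ := fun n x => Real.smoothTransition (n * f x) with hφ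
  have hφ0 : ∀ n x, 0 ≤ φ n x := fun n x => Real.smoothTransition.nonneg _
  have hφ1 : ∀ n x, φ n x ≤ 1 := fun n x => Real.smoothTransition.le_one _
  have hout : ∀ n x, x ∉ U → φ n x = 0 := by
    intro n x hx
    have : f x = 0 := by
      by_contra hne
      exact hx (by rw [← hfs]; exact hne)
    simp only [hφ, this, mul_zero]
    exact Real.smoothTransition.zero_of_nonpos le_rfl
  have hlim : ∀ x, Tendsto (fun n => φ n x) atTop (𝓝 (U.indicator (fun _ => (1 : ℝ)) x)) := by
    intro x
    by_cases hx : x ∈ U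
    · rw [indicator_of_mem hx]
      have hpos : 0 < f x := lt_of_le_of_ne (hf0 x) (Ne.symm (by rw [← hfs] at hx; exact hx))
      obtain ⟨N, hN⟩ := exists_nat_gt (1 / f x)
      apply tendsto_const_nhds.congr'
      filter_upwards [eventually_ge_atTop N] with n hn
      symm
      apply Real.smoothTransition.one_of_one_le
      have h1 : (N : ℝ) ≤ n := by exact_mod_cast hn
      have h2 : 1 / f x < n := hN.trans_le h1
      rw [div_lt_iff₀ hpos] at h2
      exact h2.le
    · rw [indicator_of_notMem hx]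
      simp only [hout _ x hx]
      exact tendsto_const_nhds
  have hφd : ∀ n, ContDiff ℝ ∞ (φ n) := by
    intro n
    exact Real.smoothTransition.contDiff.comp (contDiff_const.mul hfd)
  have hsupp : ∀ n, Function.support (φ n) ⊆ U := by
    intro n x hx
    by_contra hne
    exact hx (hout n x hne)
  have hcomp : ∀ n, HasCompactSupport (φ n) := by
    intro n
    apply HasCompactSupport.intro (K := closure U) hb.isCompact_closure
    intro x hx
    exact hout n x (fun h => hx (subset_closure h))
  have hbound : ∀ n, ∫ t, φ n t ∂lam ≤ a * (volume.real U) + (∫ ξ, ‖Lh lam ξ‖ ^ 2) / a := by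
    intro n
    set g : ℝ → ℂ := fun x => (φ n x : ℂ) with hg
    have hgd : ContDiff ℝ ∞ g := Complex.ofRealCLM.contDiff.comp (hφd n)
    have hgc : HasCompactSupport g := (hcomp n).comp_left (g := fun x : ℝ => (x : ℂ)) (by simp)
    have h1 := bound_schwartz lam hL (hgc.toSchwartzMap hgd) a ha
    have h2 : ∀ x, (hgc.toSchwartzMap hgd) x = g x := fun x => rfl
    simp only [h2] at h1
    have h3 : ∫ t, g t ∂lam = ((∫ t, φ n t ∂lam : ℝ) : ℂ) := by
      simp only [hg]
      exact integral_ofReal
    rw [h3, Complex.norm_real, Real.norm_of_nonneg (integral_nonneg (hφ0 n))] at h1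
    have h4 : ∫ x, ‖g x‖ ^ 2 ≤ volume.real U := by
      have e : ∫ x, U.indicator (fun _ => (1 : ℝ)) x = volume.real U := by
        rw [integral_indicator hU.measurableSet]
        simp
      rw [← e]
      apply integral_mono_of_nonneg
      · filter_upwards with x
        positivity
      · rw [integrable_indicator_iff hU.measurableSet]
        have : volume U < ⊤ := hb.measure_lt_top
        exact integrableOn_const this.ne
      · filter_upwards with x
        by_cases hx : x ∈ U
        · rw [indicator_of_mem hx]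
          simp only [hg, Complex.norm_real]
          rw [Real.norm_of_nonneg (hφ0 n x)]
          exact pow_le_one₀ (hφ0 n x) (hφ1 n x)
        · rw [indicator_of_notMem hx]
          simp only [hg, hout n x hx]
          simp
    have h5 : a * ∫ x, ‖g x‖ ^ 2 ≤ a * volume.real U := by gcongr
    linarith
  have htend : Tendsto (fun n => ∫ t, φ n t ∂lam) atTop
      (𝓝 (∫ t, U.indicator (fun _ => (1 : ℝ)) t ∂lam)) := by
    apply tendsto_integral_of_dominated_convergence (fun _ => (1 : ℝ))
    · intro n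
      exact (hφd n).continuous.aestronglyMeasurable
    · exact integrable_const _
    · intro n
      filter_upwards with x
      rw [Real.norm_of_nonneg (hφ0 n x)]
      exact hφ1 n x
    · filter_upwards with x
      exact hlim x
  have h6 : ∫ t, U.indicator (fun _ => (1 : ℝ)) t ∂lam = lam.real U := by
    rw [integral_indicator hU.measurableSet]
    simp
  rw [h6] at htend
  exact le_of_tendsto' htend hbound

theorem stmF : StmF := by
  intro lam _ C p hp h
  have hL := Lh_integrable lam C p hp h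
  set M := ∫ ξ, ‖Lh lam ξ‖ ^ 2 with hM
  have hM0 : 0 ≤ M := integral_nonneg (fun _ => by positivity)
  -- bounded null sets are null
  have key : ∀ (A : Set ℝ) (R : ℝ), A ⊆ ball 0 R → volume A = 0 → lam A = 0 := by
    intro A R hAR hA
    have h1 : ∀ ε : ℝ, 0 < ε → lam.real A ≤ ε := by
      intro ε hε
      set a : ℝ := 2 * (M + 1) / ε with ha
      have ha0 : 0 < a := by positivity
      obtain ⟨U, hAU, hUo, hUv⟩ := A.exists_isOpen_lt_of_lt (ENNReal.ofReal (ε / (2 * a)))
        (by rw [hA]; positivity : volume A < _)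
      set W := U ∩ ball 0 R with hW
      have hWo : IsOpen W := hUo.inter isOpen_ball
      have hWb : Bornology.IsBounded W := isBounded_ball.subset inter_subset_right
      have h2 := bound_open lam hL W hWo hWb a ha0
      have h3 : volume.real W ≤ ε / (2 * a) := by
        have : volume W ≤ ENNReal.ofReal (ε / (2 * a)) := (measure_mono inter_subset_left).trans hUv.le
        rw [measureReal_def]
        exact ENNReal.toReal_le_of_le_ofReal (by positivity) this
      have h4 : lam.real A ≤ lam.real W := measureReal_mono (subset_inter hAU hAR)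
      have h5 : a * volume.real W ≤ ε / 2 := by
        calc a * volume.real W ≤ a * (ε / (2 * a)) := by gcongr
          _ = ε / 2 := by field_simp
      have h6 : M / a ≤ ε / 2 := by
        rw [div_le_iff₀ ha0, ha]
        have : ε / 2 * (2 * (M + 1) / ε) = M + 1 := by field_simp
        rw [this]; linarith
      linarith
    have h2 : lam.real A = 0 := le_antisymm (le_of_forall_pos_le_add (by simpa using h1))
      measureReal_nonneg
    exact (measureReal_eq_zero_iff).1 h2
  refine Measure.AbsolutelyContinuous.mk ?_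
  intro A hAm hA
  have hcov : A = ⋃ n : ℕ, A ∩ ball 0 (n : ℝ) := by
    rw [← inter_iUnion, iUnion_ball_nat, inter_univ]
  rw [hcov]
  apply measure_iUnion_null
  intro n
  exact key _ n inter_subset_right (measure_mono_null inter_subset_left hA)

end R257.SV
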