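import Pool.Agent.R257.SV.Defs

set_option autoImplicit false
set_option maxHeartbeats 400000

open MeasureTheory Metric Set Filter Topology Module
open scoped ENNReal NNReal InnerProductSpace

namespace R257.SV

namespace PartG

lemma re_inv {σ τ l : ℝ} (hσ : 0 < σ) :
    (1 / (((1 / (2 * σ ^ 2) : ℝ) : ℂ) - ((τ * l : ℝ) : ℂ) * Complex.I)).re =
      2 * σ ^ 2 / (1 + 4 * σ ^ 4 * τ ^ 2 * l ^ 2) := by
  have h1 : (1 : ℝ) + 4 * σ ^ 4 * τ ^ 2 * l ^ 2 ≠ 0 := by positivity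
  have h2 : (1 / (2 * σ ^ 2)) * (1 / (2 * σ ^ 2)) + (τ * l) * (τ * l) ≠ 0 := by
    have h3 := mul_self_nonneg (τ * l)
    have h4 : 0 < (1 / (2 * σ ^ 2)) * (1 / (2 * σ ^ 2)) := by positivity
    linarith
  rw [one_div, Complex.inv_re, Complex.normSq_apply]
  simp only [Complex.sub_re, Complex.sub_im, Complex.ofReal_re, Complex.ofReal_im, Complex.mul_re,
    Complex.mul_im, Complex.I_re, Complex.I_im, mul_zero, mul_one, sub_zero, zero_sub, add_zero,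
    zero_add, zero_mul, neg_mul_neg]
  rw [div_eq_div_iff h2 h1]
  field_simp
  ring

lemma A_re {σ τ l : ℝ} : (((1 / (2 * σ ^ 2) : ℝ) : ℂ) - ((τ * l : ℝ) : ℂ) * Complex.I).re =
    1 / (2 * σ ^ 2) := by
  rw [Complex.sub_re, Complex.ofReal_re, Complex.re_ofReal_mul, Complex.I_re, mul_zero, sub_zero]

lemma factor_le {σ τ l β M : ℝ} (hσ : 0 < σ) (hl : |l| ≤ M) :
    ‖((Real.pi : ℂ) / (((1 / (2 * σ ^ 2) : ℝ) : ℂ) - ((τ * l : ℝ) : ℂ) * Complex.I)) ^
        (1 / 2 : ℂ) * Complex.exp ((2 * Complex.I * τ * β) ^ 2 /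
          (4 * (((1 / (2 * σ ^ 2) : ℝ) : ℂ) - ((τ * l : ℝ) : ℂ) * Complex.I)))‖ ≤
      Real.sqrt (2 * Real.pi * σ ^ 2) *
        Real.exp (-(2 * σ ^ 2 * τ ^ 2 * β ^ 2) / (1 + 4 * σ ^ 4 * τ ^ 2 * M ^ 2)) := by
  set A : ℂ := ((1 / (2 * σ ^ 2) : ℝ) : ℂ) - ((τ * l : ℝ) : ℂ) * Complex.I with hA
  have hAre : A.re = 1 / (2 * σ ^ 2) := A_re
  have hpos : 0 < 1 / (2 * σ ^ 2) := by positivity
  have hA0 : A ≠ 0 := by
    intro h
    rw [h] at hAre
    simp at hAre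
    linarith
  have hnA : 1 / (2 * σ ^ 2) ≤ ‖A‖ := by
    rw [← hAre]
    exact (le_abs_self _).trans (Complex.abs_re_le_norm A)
  rw [norm_mul]
  refine mul_le_mul ?_ ?_ (norm_nonneg _) (Real.sqrt_nonneg _)
  · rw [show (1 / 2 : ℂ) = ((1 / 2 : ℝ) : ℂ) by push_cast; rfl, Complex.norm_cpow_real,
      ← Real.sqrt_eq_rpow]
    apply Real.sqrt_le_sqrt
    rw [norm_div, Complex.norm_real, Real.norm_eq_abs, abs_of_pos Real.pi_pos, div_le_iff₀ (by
      linarith)]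
    have h1 : 2 * Real.pi * σ ^ 2 * (1 / (2 * σ ^ 2)) = Real.pi := by field_simp
    calc Real.pi = 2 * Real.pi * σ ^ 2 * (1 / (2 * σ ^ 2)) := h1.symm
      _ ≤ _ := mul_le_mul_of_nonneg_left hnA (by positivity)
  · have h1 : (2 * Complex.I * τ * β) ^ 2 / (4 * A) = ((-(τ ^ 2 * β ^ 2) : ℝ) : ℂ) * (1 / A) := by
      have : (2 * Complex.I * τ * β) ^ 2 = -4 * τ ^ 2 * β ^ 2 := by
        ring_nf
        rw [Complex.I_sq]
        ring
      rw [this]
      push_cast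
      field_simp
    rw [h1, Complex.norm_exp, Complex.re_ofReal_mul, hA, re_inv hσ]
    apply Real.exp_le_exp.2
    have h2 : l ^ 2 ≤ M ^ 2 := sq_le_sq' (abs_le.1 hl).1 (abs_le.1 hl).2
    have h3 : 1 + 4 * σ ^ 4 * τ ^ 2 * l ^ 2 ≤ 1 + 4 * σ ^ 4 * τ ^ 2 * M ^ 2 := by
      have : 4 * σ ^ 4 * τ ^ 2 * l ^ 2 ≤ 4 * σ ^ 4 * τ ^ 2 * M ^ 2 :=
        mul_le_mul_of_nonneg_left h2 (by positivity)
      linarith
    have h4 : 2 * σ ^ 2 / (1 + 4 * σ ^ 4 * τ ^ 2 * M ^ 2) ≤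
        2 * σ ^ 2 / (1 + 4 * σ ^ 4 * τ ^ 2 * l ^ 2) :=
      div_le_div_of_nonneg_left (by positivity) (by positivity) h3
    have h5 : -(2 * σ ^ 2 * τ ^ 2 * β ^ 2) / (1 + 4 * σ ^ 4 * τ ^ 2 * M ^ 2) =
        -(τ ^ 2 * β ^ 2) * (2 * σ ^ 2 / (1 + 4 * σ ^ 4 * τ ^ 2 * M ^ 2)) := by ring
    rw [h5]
    have h6 := mul_le_mul_of_nonneg_left h4 (by positivity : 0 ≤ τ ^ 2 * β ^ 2)
    linarith

end PartG

open PartG in
theorem stmG : StmG := by
  intro V _ _ _ _ _ B hB z₀ τ σ hσ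
  have hsym : (B : V →ₗ[ℝ] V).IsSymmetric := fun x y => hB x y
  set b := hsym.eigenvectorBasis rfl with hb
  set lam : Fin (finrank ℝ V) → ℝ := hsym.eigenvalues rfl with hlam
  have hBb : ∀ j, B (b j) = lam j • b j := by
    intro j
    have h := hsym.apply_eigenvectorBasis rfl j
    rw [RCLike.ofReal_real_eq_id] at h
    exact h
  set β : Fin (finrank ℝ V) → ℝ := fun j => b.repr (B z₀) j with hβ
  have hlamle : ∀ j, |lam j| ≤ ‖B‖ := by
    intro j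
    have h1 : ‖B (b j)‖ = |lam j| := by
      rw [hBb, norm_smul, b.orthonormal.norm_eq_one, mul_one, Real.norm_eq_abs]
    rw [← h1]
    have := B.le_opNorm (b j)
    rwa [b.orthonormal.norm_eq_one, mul_one] at this
  let e := b.repr.symm
  -- change of variables
  have hcv : ∀ f : V → ℂ, ∫ z, f z = ∫ v : Fin (finrank ℝ V) → ℝ, f (z₀ + e (WithLp.toLp 2 v)) := by
    intro f
    rw [← integral_add_left_eq_self f z₀,
      ← e.measurePreserving.integral_comp e.toHomeomorph.measurableEmbedding,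
      ← (PiLp.volume_preserving_toLp _).integral_comp
      (MeasurableEquiv.toLp 2 _).measurableEmbedding]
  rw [hcv]
  have key : ∀ v : Fin (finrank ℝ V) → ℝ,
      Complex.exp (Complex.I * ((τ * ⟪z₀ + e (WithLp.toLp 2 v), B (z₀ + e (WithLp.toLp 2 v))⟫_ℝ : ℝ) : ℂ) -
      ((‖z₀ + e (WithLp.toLp 2 v) - z₀‖ ^ 2 / (2 * σ ^ 2) : ℝ) : ℂ)) =
      Complex.exp (Complex.I * ((τ * ⟪z₀, B z₀⟫_ℝ : ℝ) : ℂ)) *
      Complex.exp (-∑ j, (((1 / (2 * σ ^ 2) : ℝ) : ℂ) - ((τ * lam j : ℝ) : ℂ) * Complex.I) *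
        (v j : ℂ) ^ 2 + ∑ j, (2 * Complex.I * τ * β j) * v j) := by
    intro v
    set w := e (WithLp.toLp 2 v) with hw
    have hrepr : ∀ j, b.repr w j = v j := by
      intro j
      rw [hw]
      simp [e]
    have hnorm : ‖w‖ ^ 2 = ∑ j, v j ^ 2 := by
      rw [← b.repr.norm_map w, EuclideanSpace.norm_sq_eq]
      refine Finset.sum_congr rfl fun j _ => ?_
      rw [hrepr, Real.norm_eq_abs, sq_abs]
    have hinner : ∀ y : V, ⟪w, y⟫_ℝ = ∑ j, v j * b.repr y j := by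
      intro y
      rw [← b.repr.inner_map_map w y, PiLp.inner_apply]
      refine Finset.sum_congr rfl fun j _ => ?_
      rw [hrepr]
      simp [mul_comm]
    have hBw : ∀ j, b.repr (B w) j = lam j * v j := by
      intro j
      rw [b.repr_apply_apply]
      rw [← hB, hBb, real_inner_smul_left, ← b.repr_apply_apply, hrepr]
    have hq : ⟪z₀ + w, B (z₀ + w)⟫_ℝ = ⟪z₀, B z₀⟫_ℝ + 2 * (∑ j, v j * β j) +
        ∑ j, lam j * v j ^ 2 := by
      rw [map_add, inner_add_left, inner_add_right, inner_add_right, hinner (B z₀), hinner (B w)]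
      have h1 : ⟪z₀, B w⟫_ℝ = ∑ j, v j * β j := by
        rw [← hB, real_inner_comm, hinner]
      rw [h1]
      have h2 : ∑ j, v j * b.repr (B w) j = ∑ j, lam j * v j ^ 2 := by
        refine Finset.sum_congr rfl fun j _ => ?_
        rw [hBw]; ring
      rw [h2]
      ring
    rw [← Complex.exp_add, add_sub_cancel_left, hq, hnorm]
    congr 1
    push_cast
    rw [Finset.sum_div]
    simp only [mul_add, Finset.mul_sum, sub_mul, Finset.sum_sub_distrib, neg_sub]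
    have e1 : ∑ j, Complex.I * (τ * (2 * ((v j : ℂ) * (β j : ℂ)))) =
        ∑ j, 2 * Complex.I * τ * (β j) * (v j) := Finset.sum_congr rfl fun j _ => by ring
    have e2 : ∑ j, Complex.I * ((τ : ℂ) * ((lam j : ℂ) * (v j : ℂ) ^ 2)) =
        ∑ j, (τ : ℂ) * (lam j : ℂ) * Complex.I * (v j : ℂ) ^ 2 :=
      Finset.sum_congr rfl fun j _ => by ring
    have e3 : ∑ j, (v j : ℂ) ^ 2 / (2 * (σ : ℂ) ^ 2) = ∑ j, 1 / (2 * (σ : ℂ) ^ 2) * (v j : ℂ) ^ 2 :=
      Finset.sum_congr rfl fun j _ => by ring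
    rw [e1, e2, e3]
    ring
  simp_rw [key]
  rw [integral_const_mul, norm_mul]
  have hone : ‖Complex.exp (Complex.I * ((τ * ⟪z₀, B z₀⟫_ℝ : ℝ) : ℂ))‖ = 1 := by
    rw [mul_comm, Complex.norm_exp_ofReal_mul_I]
  rw [hone, one_mul, GaussianFourier.integral_cexp_neg_sum_mul_add (fun j => ?_)
    (fun j => 2 * Complex.I * τ * β j)]
  · rw [norm_prod]
    refine (Finset.prod_le_prod (fun j _ => norm_nonneg _) fun j _ =>
      factor_le (β := β j) hσ (hlamle j)).trans (le_of_eq ?_)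
    rw [Finset.prod_mul_distrib, Finset.prod_const, Finset.card_univ, Fintype.card_fin,
      ← Real.exp_sum]
    congr 2
    have h1 : ‖B z₀‖ ^ 2 = ∑ j, β j ^ 2 := by
      rw [← b.repr.norm_map (B z₀), EuclideanSpace.norm_sq_eq]
      refine Finset.sum_congr rfl fun j _ => ?_
      rw [Real.norm_eq_abs, sq_abs]
    rw [h1, Finset.mul_sum, ← Finset.sum_div, Finset.sum_neg_distrib]
  · rw [A_re]
    positivity

end R257.SV
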