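import Pool.Agent.R257.SV.Defs

open MeasureTheory Metric Set Filter Topology Module
open scoped ENNReal NNReal InnerProductSpace

namespace R257.SV

theorem stmI : StmI := by
  intro V _ _ _ _ _ μ _ k
  induction k with
  | zero =>
    intro _
    have : {v : Fin 0 → V | ¬ LinearIndependent ℝ v} = ∅ := by
      ext v
      simp only [mem_ofPred_eq, mem_empty_iff_false, iff_false, not_not]
      exact linearIndependent_empty_type
    rw [this, measure_empty]
  | succ k ih =>
    intro hU
    have ih' := ih (fun U hU' => hU U (by omega))
    set A : Set (Fin (k + 1) → V) := {v | ¬ LinearIndependent ℝ v} with hA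
    have hAm : MeasurableSet A := by
      have : IsOpen {v : Fin (k + 1) → V | LinearIndependent ℝ v} :=
        isOpen_setOfPred_linearIndependent
      exact this.measurableSet.compl
    set e := MeasurableEquiv.piFinSuccAbove (fun _ : Fin (k + 1) => V) 0 with he
    have hmp : MeasurePreserving e (Measure.pi fun _ : Fin (k + 1) => μ)
        (μ.prod (Measure.pi fun _ : Fin k => μ)) :=
      measurePreserving_piFinSuccAbove (fun _ : Fin (k + 1) => μ) 0
    have hBm : MeasurableSet (e.symm ⁻¹' A) := e.symm.measurable hAm
    have h1 : (Measure.pi fun _ : Fin (k + 1) => μ) A =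
        (μ.prod (Measure.pi fun _ : Fin k => μ)) (e.symm ⁻¹' A) := by
      rw [← hmp.measure_preimage hBm.nullMeasurableSet, ← preimage_comp]
      congr 1
      ext v
      simp
    rw [h1, Measure.prod_apply_symm hBm]
    apply lintegral_eq_zero_of_ae_eq_zero
    have h2 : ∀ᵐ u ∂(Measure.pi fun _ : Fin k => μ), LinearIndependent ℝ u := by
      rw [ae_iff]; exact ih'
    filter_upwards [h2] with u hu
    have h3 : (fun x => (x, u)) ⁻¹' (e.symm ⁻¹' A) ⊆
        (Submodule.span ℝ (range u) : Set V) := by
      intro x hx
      by_contra hx2
      apply hx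
      have h4 : e.symm (x, u) = (Fin.cons x u : Fin (k + 1) → V) := by
        rw [he]
        funext i
        simp [MeasurableEquiv.piFinSuccAbove, Fin.insertNthEquiv]
      rw [h4, linearIndependent_finCons]
      exact ⟨hu, hx2⟩
    refine measure_mono_null h3 (hU _ ?_)
    rw [finrank_span_eq_card hu]
    simp

end R257.SV
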