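import Pool.Agent.R257.SV.Defs

/-!
# MP_83cc0d_an, part K: factorisation of the Gram determinant
-/

open MeasureTheory Metric Set Filter Topology Module
open scoped ENNReal NNReal InnerProductSpace

namespace R257.SV

theorem gramDet_eq {V : Type} [NormedAddCommGroup V] [InnerProductSpace ℝ V] {k : ℕ}
    (v : Fin k → V) : gramDet v = (Matrix.gram ℝ v).det := rfl

/-- the equivalence `Fin 2 ⊕ Fin j ≃ Fin (j + 2)` -/
noncomputable def e2 (j : ℕ) : Fin 2 ⊕ Fin j ≃ Fin (j + 2) :=
  Equiv.ofBijective (Sum.elim ![0, 1] (fun i => i.succ.succ)) (by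
    rw [Fintype.bijective_iff_injective_and_card]
    constructor
    · rintro (a | a) (b | b) hab
      · fin_cases a <;> fin_cases b <;> simp at hab ⊢
      · fin_cases a
        · simp at hab
          exact absurd hab (Fin.succ_ne_zero _).symm
        · exfalso
          have := congrArg Fin.val hab
          simp at this
      · fin_cases b
        · simp at hab
        · exfalso
          have := congrArg Fin.val hab
          simp at this
      · simpa using hab
    · simp; ring)

theorem stmK : StmK := by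
  intro V _ _ _ j
  constructor
  · intro u
    rw [gramDet_eq]
    have h0 : 0 ≤ (Matrix.gram ℝ u).det := (Matrix.posSemidef_gram ℝ u).det_nonneg
    refine ⟨h0, ?_⟩
    rw [← Matrix.det_gram_ne_zero_iff_linearIndependent (𝕜 := ℝ)]
    exact ⟨fun h => h.ne', fun h => lt_of_le_of_ne h0 (Ne.symm h)⟩
  · intro u hu x y
    set U := Submodule.span ℝ (range u) with hU
    set D : Matrix (Fin j) (Fin j) ℝ := Matrix.gram ℝ u with hD
    have hdet : D.det ≠ 0 := (Matrix.det_gram_ne_zero_iff_linearIndependent (𝕜 := ℝ)).2 hu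
    let _ : Invertible D := Matrix.invertibleOfIsUnitDet D (isUnit_iff_ne_zero.2 hdet)
    set z : Fin 2 → V := ![x, y] with hz
    set w : Fin (j + 2) → V := (Fin.cons x (Fin.cons y u : Fin (j + 1) → V) : Fin (j + 2) → V)
      with hw
    have hwe : ∀ s, w (e2 j s) = Sum.elim z u s := by
      rintro (a | a)
      · fin_cases a <;> simp [e2, hw, hz]
      · simp [e2, hw]
    set A : Matrix (Fin 2) (Fin 2) ℝ := Matrix.of fun p q => ⟪z p, z q⟫_ℝ with hA
    set B : Matrix (Fin 2) (Fin j) ℝ := Matrix.of fun p i => ⟪z p, u i⟫_ℝ with hB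
    set C : Matrix (Fin j) (Fin 2) ℝ := Matrix.of fun i p => ⟪u i, z p⟫_ℝ with hC
    have h1 : gramDet w = (Matrix.fromBlocks A B C D).det := by
      rw [gramDet, ← Matrix.det_submatrix_equiv_self (e2 j)]
      congr 1
      ext s t
      rw [Matrix.submatrix_apply, Matrix.of_apply, hwe, hwe]
      rcases s with s | s <;> rcases t with t | t <;> rfl
    have hproj : ∀ v : V, ∃ a : Fin j → ℝ, v - (Uᗮ.orthogonalProjectionOnto v : V) = ∑ i, a i • u i := by
      intro v
      have hmem : v - (Uᗮ.orthogonalProjectionOnto v : V) ∈ Uᗮᗮ :=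
        Submodule.sub_starProjection_mem_orthogonal v
      rw [Submodule.orthogonal_orthogonal, hU, Submodule.mem_span_range_iff_exists_fun] at hmem
      obtain ⟨a, ha⟩ := hmem
      exact ⟨a, ha.symm⟩
    choose a ha using hproj
    have hperp : ∀ (v : V) (i : Fin j), ⟪u i, (Uᗮ.orthogonalProjectionOnto v : V)⟫_ℝ = 0 := by
      intro v i
      exact (Submodule.mem_orthogonal _ _).1 (Uᗮ.orthogonalProjectionOnto v).2 _
        (Submodule.subset_span (mem_range_self i))
    have hDa : ∀ v : V, D.mulVec (a v) = fun i => ⟪u i, v⟫_ℝ := by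
      intro v
      ext i
      have e1 : ⟪u i, v⟫_ℝ = ⟪u i, v - (Uᗮ.orthogonalProjectionOnto v : V)⟫_ℝ := by
        rw [inner_sub_right, hperp, sub_zero]
      rw [e1, ha v, inner_sum]
      simp only [Matrix.mulVec, dotProduct, hD, Matrix.gram_apply, inner_smul_right]
      apply Finset.sum_congr rfl
      intro k _
      ring
    have hinv : ∀ v : V, (⅟D).mulVec (fun i => ⟪u i, v⟫_ℝ) = a v := by
      intro v
      rw [← hDa v, Matrix.mulVec_mulVec, invOf_mul_self, Matrix.one_mulVec]
    have h2 : A - B * ⅟D * C = Matrix.of fun p q =>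
        ⟪(Uᗮ.orthogonalProjectionOnto (z p) : V), (Uᗮ.orthogonalProjectionOnto (z q) : V)⟫_ℝ := by
      ext p q
      rw [Matrix.sub_apply, Matrix.mul_assoc, Matrix.mul_apply]
      have e1 : ∀ i, (⅟D * C) i q = a (z q) i := by
        intro i
        rw [← hinv (z q)]
        rfl
      simp only [e1]
      have e2 : ∑ i, B p i * a (z q) i = ⟪z p, z q - (Uᗮ.orthogonalProjectionOnto (z q) : V)⟫_ℝ := by
        rw [ha (z q), inner_sum]
        apply Finset.sum_congr rfl
        intro i _
        rw [inner_smul_right]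
        simp only [hB, Matrix.of_apply]
        ring
      rw [e2]
      simp only [hA, Matrix.of_apply]
      rw [inner_sub_right]
      have e3 : ⟪z p - (Uᗮ.orthogonalProjectionOnto (z p) : V),
          (Uᗮ.orthogonalProjectionOnto (z q) : V)⟫_ℝ = 0 := by
        rw [ha (z p), sum_inner]
        apply Finset.sum_eq_zero
        intro i _
        rw [inner_smul_left, hperp, mul_zero]
      rw [inner_sub_left] at e3
      linarith
    rw [h1, Matrix.det_fromBlocks₂₂, h2, Matrix.det_fin_two]
    simp only [Matrix.of_apply]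
    rw [gramDet_eq, wedge2]
    simp only [hz, Matrix.cons_val_zero, Matrix.cons_val_one, Submodule.coe_inner,
      real_inner_self_eq_norm_sq, Submodule.coe_norm]
    rw [real_inner_comm ((Uᗮ.orthogonalProjectionOnto x : V)) ((Uᗮ.orthogonalProjectionOnto y : V))]
    ring

end R257.SV
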