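import Pool.Agent.R257.SV.Defs

set_option autoImplicit false
set_option maxHeartbeats 400000

open MeasureTheory Metric Set Filter Topology Module
open scoped ENNReal NNReal InnerProductSpace ComplexConjugate

namespace R257.SV

namespace PartL

variable {V : Type} [NormedAddCommGroup V] [InnerProductSpace ℝ V]
  [FiniteDimensional ℝ V] [MeasurableSpace V] [BorelSpace V]

/-- the Gaussian -/
noncomputable def G (σ : ℝ) (z₀ z : V) : ℝ := Real.exp (-(‖z - z₀‖ ^ 2 / (2 * σ ^ 2)))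

lemma G_pos (σ : ℝ) (z₀ z : V) : 0 < G σ z₀ z := Real.exp_pos _

lemma G_cont (σ : ℝ) : Continuous fun p : V × V => G σ p.1 p.2 := by
  unfold G
  fun_prop

lemma G_int {σ : ℝ} (hσ : 0 < σ) (z₀ : V) : Integrable (G σ z₀) := by
  have h1 : 0 < (((1 / (2 * σ ^ 2) : ℝ) : ℂ)).re := by
    rw [Complex.ofReal_re]; positivity
  have h2 := (GaussianFourier.integrable_cexp_neg_mul_sq_norm_add (V := V) h1 0 0).norm
  have h3 : Integrable (fun v : V => Real.exp (-(‖v‖ ^ 2 / (2 * σ ^ 2)))) := by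
    refine h2.congr (Eventually.of_forall fun v => ?_)
    simp only []
    rw [Complex.norm_exp]
    congr 1
    simp only [zero_mul, add_zero]
    rw [show (-((1 / (2 * σ ^ 2) : ℝ) : ℂ) * (‖v‖ : ℂ) ^ 2) = ((-(1 / (2 * σ ^ 2)) * ‖v‖ ^ 2 : ℝ) : ℂ)
      by push_cast; ring, Complex.ofReal_re]
    ring
  exact h3.comp_sub_right z₀

/-- the kernel -/
noncomputable def ker (A : V → V →L[ℝ] V) (τ σ : ℝ) (z₀ : V) (q : V × V) : ℂ :=
  ∫ z : V, Complex.exp (Complex.I * ((τ * ⟪z, (A q.1 - A q.2) z⟫_ℝ : ℝ) : ℂ) -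
      ((‖z - z₀‖ ^ 2 / (2 * σ ^ 2) : ℝ) : ℂ))

/-- the integrand of `T` -/
noncomputable def hh (A : V → V →L[ℝ] V) (τ : ℝ) (g : V → ℂ) (z y : V) : ℂ :=
  Complex.exp (Complex.I * ((τ * ⟪z, A y z⟫_ℝ : ℝ) : ℂ)) * g y

lemma hh_norm {A : V → V →L[ℝ] V} {τ : ℝ} {g : V → ℂ} (hg : ∀ y, ‖g y‖ ≤ 1) (z y : V) :
    ‖hh A τ g z y‖ ≤ 1 := by
  unfold hh
  rw [norm_mul, mul_comm Complex.I, Complex.norm_exp_ofReal_mul_I, one_mul]
  exact hg y

lemma hh_meas {A : V → V →L[ℝ] V} (hA : Continuous A) {τ : ℝ} {g : V → ℂ} (hg : Measurable g) :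
    Measurable fun p : V × V => hh A τ g p.1 p.2 := by
  have h1 : Continuous fun p : V × V => (A p.2) p.1 := by fun_prop
  have h2 : Continuous fun p : V × V =>
      Complex.exp (Complex.I * ((τ * ⟪p.1, A p.2 p.1⟫_ℝ : ℝ) : ℂ)) := by fun_prop
  exact h2.measurable.mul (hg.comp measurable_snd)

lemma T_meas {A : V → V →L[ℝ] V} (hA : Continuous A) {τ : ℝ} {g : V → ℂ} (hg : Measurable g)
    (ν : Measure V) [IsFiniteMeasure ν] : StronglyMeasurable (T A ν τ g) :=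
  (hh_meas hA hg).stronglyMeasurable.integral_prod_right'

lemma T_norm {A : V → V →L[ℝ] V} {τ : ℝ} {g : V → ℂ} (hg : ∀ y, ‖g y‖ ≤ 1)
    (ν : Measure V) [IsFiniteMeasure ν] (z : V) : ‖T A ν τ g z‖ ≤ ν.real univ := by
  have := norm_integral_le_of_norm_le_const (μ := ν) (f := fun y => hh A τ g z y) (C := 1)
    (Eventually.of_forall fun y => hh_norm hg z y)
  rw [one_mul] at this
  exact this

/-- the `TT*` identity -/
lemma tt {A : V → V →L[ℝ] V} (hA : Continuous A) {τ σ : ℝ} (hσ : 0 < σ) {g : V → ℂ}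
    (hg : Measurable g) (hg1 : ∀ y, ‖g y‖ ≤ 1) (ν : Measure V) [IsFiniteMeasure ν] (z₀ : V) :
    ∫⁻ z, ‖T A ν τ g z‖ₑ ^ 2 * ENNReal.ofReal (G σ z₀ z) ≤
      ∫⁻ q, ‖ker A τ σ z₀ q‖ₑ ∂(ν.prod ν) := by
  set F : V → V × V → ℂ := fun z q => (G σ z₀ z : ℂ) * (hh A τ g z q.1 * conj (hh A τ g z q.2))
    with hF
  have hFm : Measurable (Function.uncurry F) := by
    have h1 : Measurable fun p : V × (V × V) => ((G σ z₀ p.1 : ℝ) : ℂ) := by
      unfold G; fun_prop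
    have h2 : Measurable fun p : V × (V × V) => hh A τ g p.1 p.2.1 :=
      (hh_meas hA hg).comp (measurable_fst.prodMk (measurable_fst.comp measurable_snd))
    have h3 : Measurable fun p : V × (V × V) => hh A τ g p.1 p.2.2 :=
      (hh_meas hA hg).comp (measurable_fst.prodMk (measurable_snd.comp measurable_snd))
    exact h1.mul (h2.mul (Complex.continuous_conj.measurable.comp h3))
  have hFb : ∀ z q, ‖F z q‖ ≤ G σ z₀ z := by
    intro z q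
    simp only [hF]
    rw [norm_mul, norm_mul, RCLike.norm_conj, Complex.norm_real, Real.norm_eq_abs,
      abs_of_pos (G_pos _ _ _)]
    refine mul_le_of_le_one_right (G_pos _ _ _).le ?_
    exact mul_le_one₀ (hh_norm hg1 _ _) (norm_nonneg _) (hh_norm hg1 _ _)
  have hFi : Integrable (Function.uncurry F) (volume.prod (ν.prod ν)) := by
    have h1 := (G_int hσ z₀).mul_prod (integrable_const (1 : ℝ) : Integrable (fun _ : V × V => (1 : ℝ))
      (ν.prod ν))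
    refine h1.mono' hFm.aestronglyMeasurable (Eventually.of_forall fun p => ?_)
    rw [mul_one]
    exact hFb p.1 p.2
  -- pointwise identity
  have h1 : ∀ z, ((‖T A ν τ g z‖ ^ 2 * G σ z₀ z : ℝ) : ℂ) = ∫ q, F z q ∂(ν.prod ν) := by
    intro z
    simp only [hF]
    rw [integral_const_mul, integral_prod_mul (fun y => hh A τ g z y)
      (fun y => conj (hh A τ g z y)), integral_conj]
    have h2 : ∫ y, hh A τ g z y ∂ν = T A ν τ g z := rfl
    rw [h2, Complex.mul_conj, Complex.normSq_eq_norm_sq]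
    push_cast
    ring
  have h2 : ∀ q : V × V, ∫ z, F z q = g q.1 * conj (g q.2) * ker A τ σ z₀ q := by
    intro q
    unfold ker
    rw [← integral_const_mul]
    refine integral_congr_ae (Eventually.of_forall fun z => ?_)
    simp only [hF, hh, G]
    rw [map_mul, ← Complex.exp_conj, Complex.ofReal_exp]
    have e1 : conj (Complex.I * ((τ * ⟪z, A q.2 z⟫_ℝ : ℝ) : ℂ)) =
        -(Complex.I * ((τ * ⟪z, A q.2 z⟫_ℝ : ℝ) : ℂ)) := by
      rw [map_mul, Complex.conj_I, Complex.conj_ofReal, neg_mul]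
    rw [e1]
    have e2 : Complex.exp (Complex.I * ((τ * ⟪z, (A q.1 - A q.2) z⟫_ℝ : ℝ) : ℂ) -
        ((‖z - z₀‖ ^ 2 / (2 * σ ^ 2) : ℝ) : ℂ)) =
        Complex.exp (((-(‖z - z₀‖ ^ 2 / (2 * σ ^ 2)) : ℝ) : ℂ)) *
        (Complex.exp (Complex.I * ((τ * ⟪z, A q.1 z⟫_ℝ : ℝ) : ℂ)) *
          Complex.exp (-(Complex.I * ((τ * ⟪z, A q.2 z⟫_ℝ : ℝ) : ℂ)))) := by
      rw [← Complex.exp_add, ← Complex.exp_add]
      congr 1
      rw [ContinuousLinearMap.sub_apply, inner_sub_right]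
      push_cast
      ring
    rw [e2]
    ring
  have hi : Integrable (fun z => ‖T A ν τ g z‖ ^ 2 * G σ z₀ z) := by
    have h3 := hFi.integral_prod_left
    have h4 : Integrable (fun z => ((‖T A ν τ g z‖ ^ 2 * G σ z₀ z : ℝ) : ℂ)) := by
      refine h3.congr (Eventually.of_forall fun z => ?_)
      exact (h1 z).symm
    exact_mod_cast h4.re
  have h5 : ∫⁻ z, ‖T A ν τ g z‖ₑ ^ 2 * ENNReal.ofReal (G σ z₀ z) =
      ENNReal.ofReal (∫ z, ‖T A ν τ g z‖ ^ 2 * G σ z₀ z) := by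
    rw [ofReal_integral_eq_lintegral_ofReal hi (Eventually.of_forall fun z => by
      have := (G_pos σ z₀ z).le; positivity)]
    refine lintegral_congr fun z => ?_
    rw [ENNReal.ofReal_mul (by positivity), ENNReal.ofReal_pow (norm_nonneg _), ofReal_norm]
  rw [h5]
  have h6 : ENNReal.ofReal (∫ z, ‖T A ν τ g z‖ ^ 2 * G σ z₀ z) ≤
      ‖∫ q, g q.1 * conj (g q.2) * ker A τ σ z₀ q ∂(ν.prod ν)‖ₑ := by
    have h7 : ((∫ z, ‖T A ν τ g z‖ ^ 2 * G σ z₀ z : ℝ) : ℂ) =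
        ∫ q, g q.1 * conj (g q.2) * ker A τ σ z₀ q ∂(ν.prod ν) := by
      rw [← integral_complex_ofReal]
      simp_rw [h1]
      rw [integral_integral_swap hFi]
      simp_rw [h2]
    rw [← h7, ← ofReal_norm, Complex.norm_real]
    exact ENNReal.ofReal_le_ofReal (le_abs_self _)
  refine h6.trans ((enorm_integral_le_lintegral_enorm _).trans (lintegral_mono fun q => ?_))
  rw [enorm_mul, enorm_mul]
  refine mul_le_of_le_one_left (by positivity) ?_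
  refine mul_le_one' ?_ ?_
  · rw [← ofReal_norm]
    exact ENNReal.ofReal_le_one.2 (hg1 _)
  · rw [← ofReal_norm, RCLike.norm_conj]
    exact ENNReal.ofReal_le_one.2 (hg1 _)

/-- the exponent -/
lemma exp_bound {K c σ τ D nz nB u : ℝ} (hc : 0 < c) (hD : 0 ≤ D)
    (hnz : c * D ≤ nz) (hnB : nB ≤ K * D) (hnB0 : 0 ≤ nB) (hu1 : σ ^ 2 * u = 1)
    (hX : u ≤ σ ^ 2 * τ ^ 2 * D ^ 2) :
    2 * c ^ 2 / (1 + 4 * K ^ 2) * u ≤
      (2 * σ ^ 2 * τ ^ 2 * nz ^ 2) / (1 + 4 * σ ^ 4 * τ ^ 2 * nB ^ 2) := by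
  have h1 : (c * D) ^ 2 ≤ nz ^ 2 := pow_le_pow_left₀ (by positivity) hnz 2
  have h2 : nB ^ 2 ≤ (K * D) ^ 2 := pow_le_pow_left₀ hnB0 hnB 2
  rw [div_mul_eq_mul_div, div_le_div_iff₀ (by positivity) (by positivity)]
  set X := σ ^ 2 * τ ^ 2 * D ^ 2 with hXd
  have hu0 : 0 < u := by
    by_contra h
    push Not at h
    nlinarith [sq_nonneg σ]
  have h3 : 4 * σ ^ 4 * τ ^ 2 * nB ^ 2 ≤ 4 * K ^ 2 * σ ^ 2 * X := by
    have : 4 * σ ^ 4 * τ ^ 2 * nB ^ 2 ≤ 4 * σ ^ 4 * τ ^ 2 * (K * D) ^ 2 :=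
      mul_le_mul_of_nonneg_left h2 (by positivity)
    refine this.trans (le_of_eq ?_)
    rw [hXd]; ring
  have h4 : 2 * c ^ 2 * X ≤ 2 * σ ^ 2 * τ ^ 2 * nz ^ 2 := by
    have : 2 * σ ^ 2 * τ ^ 2 * (c * D) ^ 2 ≤ 2 * σ ^ 2 * τ ^ 2 * nz ^ 2 :=
      mul_le_mul_of_nonneg_left h1 (by positivity)
    refine le_trans (le_of_eq ?_) this
    rw [hXd]; ring
  calc 2 * c ^ 2 * u * (1 + 4 * σ ^ 4 * τ ^ 2 * nB ^ 2)
      ≤ 2 * c ^ 2 * u * (1 + 4 * K ^ 2 * σ ^ 2 * X) := by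
        refine mul_le_mul_of_nonneg_left (by linarith) (by positivity)
    _ = 2 * c ^ 2 * (u + 4 * K ^ 2 * X * (σ ^ 2 * u)) := by ring
    _ = 2 * c ^ 2 * (u + 4 * K ^ 2 * X) := by rw [hu1, mul_one]
    _ ≤ 2 * c ^ 2 * (X + 4 * K ^ 2 * X) := by
        refine mul_le_mul_of_nonneg_left (by linarith) (by positivity)
    _ = 2 * c ^ 2 * X * (1 + 4 * K ^ 2) := by ring
    _ ≤ 2 * σ ^ 2 * τ ^ 2 * nz ^ 2 * (1 + 4 * K ^ 2) := by
        refine mul_le_mul_of_nonneg_right h4 (by positivity)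

/-- the near diagonal -/
def nearD (V : Type) [NormedAddCommGroup V] (ρ : ℝ) : Set (V × V) := {q | ‖q.1 - q.2‖ < ρ}

lemma nearD_meas (ρ : ℝ) : MeasurableSet (nearD V ρ) := by
  unfold nearD
  exact measurableSet_lt (by fun_prop) measurable_const

lemma ker_bound (hG : StmG) {A : V → V →L[ℝ] V}
    (hsym : ∀ y x x' : V, ⟪A y x, x'⟫_ℝ = ⟪x, A y x'⟫_ℝ) {K c : ℝ} (hc : 0 < c)
    {q : V × V} {z₀ : V} (h1 : ‖A q.1 - A q.2‖ ≤ K * ‖q.1 - q.2‖)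
    (h2 : c * ‖q.1 - q.2‖ ≤ ‖(A q.1 - A q.2) z₀‖) {σ τ u : ℝ} (hσ : 0 < σ) (hτ : 0 < τ)
    (hu : 0 < u) (hu1 : σ ^ 2 * u = 1) :
    ‖ker A τ σ z₀ q‖ₑ ≤ ENNReal.ofReal (Real.sqrt (2 * Real.pi) ^ finrank ℝ V) *
      ENNReal.ofReal (σ ^ finrank ℝ V) * ((nearD V (u / τ)).indicator (fun _ => 1) q +
      ENNReal.ofReal (Real.exp (-(2 * c ^ 2 / (1 + 4 * K ^ 2) * u)))) := by
  have h3 := hG V (A q.1 - A q.2) (fun x y => by
    rw [ContinuousLinearMap.sub_apply, ContinuousLinearMap.sub_apply, inner_sub_left,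
      inner_sub_right, hsym, hsym]) z₀ τ σ hσ
  have h4 : Real.sqrt (2 * Real.pi * σ ^ 2) = Real.sqrt (2 * Real.pi) * σ := by
    rw [Real.sqrt_mul (by positivity), Real.sqrt_sq hσ.le]
  rw [h4, mul_pow] at h3
  rw [← ofReal_norm, ← ENNReal.ofReal_mul (by positivity)]
  have hpos : 0 ≤ Real.sqrt (2 * Real.pi) ^ finrank ℝ V * σ ^ finrank ℝ V := by positivity
  refine (ENNReal.ofReal_le_ofReal h3).trans ?_
  rw [ENNReal.ofReal_mul hpos]
  refine mul_le_mul_right ?_ _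
  by_cases hq : q ∈ nearD V (u / τ)
  · rw [Set.indicator_of_mem hq]
    refine le_trans ?_ (le_self_add)
    rw [ENNReal.ofReal_le_one, Real.exp_le_one_iff]
    rw [neg_div]
    have : 0 ≤ (2 * σ ^ 2 * τ ^ 2 * ‖(A q.1 - A q.2) z₀‖ ^ 2) /
      (1 + 4 * σ ^ 4 * τ ^ 2 * ‖A q.1 - A q.2‖ ^ 2) := by positivity
    linarith
  · rw [Set.indicator_of_notMem hq, zero_add]
    refine ENNReal.ofReal_le_ofReal (Real.exp_le_exp.2 ?_)
    rw [neg_div]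
    refine neg_le_neg ?_
    refine exp_bound hc (norm_nonneg _) h2 h1 (norm_nonneg _) hu1 ?_
    have hD : u / τ ≤ ‖q.1 - q.2‖ := not_lt.1 hq
    have h5 : (u / τ) ^ 2 ≤ ‖q.1 - q.2‖ ^ 2 := pow_le_pow_left₀ (by positivity) hD 2
    calc u = σ ^ 2 * τ ^ 2 * (u / τ) ^ 2 := by
          rw [div_pow]
          field_simp
          linarith
      _ ≤ _ := mul_le_mul_of_nonneg_left h5 (by positivity)

/-- the double integral of the kernel -/
lemma ker_int (hG : StmG) {A : V → V →L[ℝ] V}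
    (hsym : ∀ y x x' : V, ⟪A y x, x'⟫_ℝ = ⟪x, A y x'⟫_ℝ) {K c : ℝ} (hc : 0 < c)
    (ν : Measure V) [IsFiniteMeasure ν] {S : Set V} (hS : ν Sᶜ = 0) {z₀ : V}
    (h1 : ∀ y ∈ S, ∀ y' ∈ S, ‖A y - A y'‖ ≤ K * ‖y - y'‖)
    (h2 : ∀ y ∈ S, ∀ y' ∈ S, c * ‖y - y'‖ ≤ ‖(A y - A y') z₀‖)
    {s : ℝ} {Cν : ℝ≥0} (hC : ∀ (x : V) (r : ℝ), 0 < r → ν (ball x r) ≤ Cν * ENNReal.ofReal (r ^ s))
    {σ τ u : ℝ} (hσ : 0 < σ) (hτ : 0 < τ)
    (hu : 0 < u) (hu1 : σ ^ 2 * u = 1) :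
    ∫⁻ q, ‖ker A τ σ z₀ q‖ₑ ∂(ν.prod ν) ≤
      ENNReal.ofReal (Real.sqrt (2 * Real.pi) ^ finrank ℝ V) *
      ENNReal.ofReal (σ ^ finrank ℝ V) * (Cν * ENNReal.ofReal ((u / τ) ^ s) * ν univ +
      ENNReal.ofReal (Real.exp (-(2 * c ^ 2 / (1 + 4 * K ^ 2) * u))) * (ν univ * ν univ)) := by
  have hae : ∀ᵐ y ∂ν, y ∈ S := by
    rw [ae_iff]
    exact hS
  have ha1 : ∀ᵐ q ∂(ν.prod ν), q.1 ∈ S := Measure.quasiMeasurePreserving_fst.ae hae
  have ha2 : ∀ᵐ q ∂(ν.prod ν), q.2 ∈ S := Measure.quasiMeasurePreserving_snd.ae hae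
  have h3 : ∫⁻ q, ‖ker A τ σ z₀ q‖ₑ ∂(ν.prod ν) ≤ ∫⁻ q,
      ENNReal.ofReal (Real.sqrt (2 * Real.pi) ^ finrank ℝ V) *
      ENNReal.ofReal (σ ^ finrank ℝ V) * ((nearD V (u / τ)).indicator (fun _ => 1) q +
      ENNReal.ofReal (Real.exp (-(2 * c ^ 2 / (1 + 4 * K ^ 2) * u)))) ∂(ν.prod ν) := by
    refine lintegral_mono_ae ?_
    filter_upwards [ha1, ha2] with q hq1 hq2
    exact ker_bound hG hsym hc (h1 _ hq1 _ hq2) (h2 _ hq1 _ hq2) hσ hτ hu hu1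
  refine h3.trans ?_
  have hm : Measurable ((nearD V (u / τ)).indicator (fun _ : V × V => (1 : ℝ≥0∞))) :=
    measurable_const.indicator (nearD_meas _)
  rw [lintegral_const_mul' _ _ (ENNReal.mul_ne_top ENNReal.ofReal_ne_top ENNReal.ofReal_ne_top),
    lintegral_add_left hm, lintegral_const,
    lintegral_indicator (nearD_meas _), setLIntegral_const, one_mul]
  refine mul_le_mul_right (add_le_add ?_ ?_) _
  · rw [Measure.prod_apply (nearD_meas _)]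
    refine (lintegral_mono (g := fun _ => (Cν : ℝ≥0∞) * ENNReal.ofReal ((u / τ) ^ s))
      fun x => ?_).trans ?_
    · refine le_trans (measure_mono ?_) (hC x (u / τ) (by positivity))
      intro y hy
      have hy' : ‖x - y‖ < u / τ := hy
      rw [mem_ball, dist_comm, dist_eq_norm]
      exact hy'
    · rw [lintegral_const]
  · refine mul_le_mul_right ?_ _
    rw [← univ_prod_univ, Measure.prod_prod]

lemma loc1 {σ r : ℝ} (hσ : 0 < σ) (hσ1 : σ ≤ 1) (hr : 0 < r)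
    (x₀ z : V) (hz : z ∈ ball x₀ r) : ENNReal.ofReal (σ ^ finrank ℝ V) *
      (ENNReal.ofReal (Real.exp (-(r ^ 2 / 2))) * volume (ball (0 : V) r)) ≤
      ∫⁻ z₀ in ball x₀ (2 * r), ENNReal.ofReal (G σ z₀ z) := by
  have h2 : ball z (σ * r) ⊆ ball x₀ (2 * r) := by
    refine ball_subset_ball' ?_
    have h3 : dist z x₀ < r := hz
    nlinarith
  have h6 : ENNReal.ofReal (σ ^ finrank ℝ V) *
    (ENNReal.ofReal (Real.exp (-(r ^ 2 / 2))) * volume (ball (0 : V) r))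
      = ENNReal.ofReal (Real.exp (-(r ^ 2 / 2))) * volume (ball z (σ * r)) := by
    rw [Measure.addHaar_ball_mul_of_pos _ _ hσ]; ring
  have h7 : ENNReal.ofReal (Real.exp (-(r ^ 2 / 2))) * volume (ball z (σ * r))
      = ∫⁻ z₀ in ball z (σ * r), ENNReal.ofReal (Real.exp (-(r ^ 2 / 2))) := by
    rw [setLIntegral_const]
  rw [h6, h7]
  have h8 : ∫⁻ z₀ in ball z (σ * r), ENNReal.ofReal (Real.exp (-(r ^ 2 / 2))) ≤
      ∫⁻ z₀ in ball z (σ * r), ENNReal.ofReal (G σ z₀ z) := by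
    refine setLIntegral_mono' measurableSet_ball fun z₀ hz₀ => ?_
    refine ENNReal.ofReal_le_ofReal (Real.exp_le_exp.2 (neg_le_neg ?_))
    have h4 : ‖z - z₀‖ < σ * r := by
      rw [← dist_eq_norm, dist_comm]; exact hz₀
    have h5 : ‖z - z₀‖ ^ 2 ≤ (σ * r) ^ 2 := pow_le_pow_left₀ (norm_nonneg _) h4.le 2
    rw [div_le_div_iff₀ (by positivity) (by norm_num)]
    nlinarith
  exact h8.trans (lintegral_mono_set h2)

/-- the localization -/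
lemma loc {Φ : V → ℝ≥0∞} (hΦ : Measurable Φ) {σ r : ℝ} (hσ : 0 < σ) (hσ1 : σ ≤ 1) (hr : 0 < r)
    (x₀ : V) {Bd : ℝ≥0∞} (hB : ∀ z₀ ∈ ball x₀ (2 * r), ∫⁻ z, Φ z * ENNReal.ofReal (G σ z₀ z) ≤ Bd) :
    (ENNReal.ofReal (σ ^ finrank ℝ V) * (ENNReal.ofReal (Real.exp (-(r ^ 2 / 2))) *
      volume (ball (0 : V) r))) * ∫⁻ z in ball x₀ r, Φ z ≤ volume (ball x₀ (2 * r)) * Bd := by
  have hGm : Measurable fun p : V × V => ENNReal.ofReal (G σ p.2 p.1) := by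
    unfold G; fun_prop
  have h1 := loc1 hσ hσ1 hr x₀
  set κ := ENNReal.ofReal (σ ^ finrank ℝ V) * (ENNReal.ofReal (Real.exp (-(r ^ 2 / 2))) *
      volume (ball (0 : V) r)) with hκ
  clear_value κ
  have e1 : κ * ∫⁻ z in ball x₀ r, Φ z = ∫⁻ z in ball x₀ r, κ * Φ z := by
    rw [lintegral_const_mul _ hΦ]
  have e2 : ∫⁻ z in ball x₀ r, κ * Φ z ≤
      ∫⁻ z in ball x₀ r, ∫⁻ z₀ in ball x₀ (2 * r), Φ z * ENNReal.ofReal (G σ z₀ z) := by
    refine setLIntegral_mono' measurableSet_ball fun z hz => ?_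
    have hGz : Measurable fun z₀ : V => ENNReal.ofReal (G σ z₀ z) := by
      unfold G; fun_prop
    have e : ∫⁻ z₀ in ball x₀ (2 * r), Φ z * ENNReal.ofReal (G σ z₀ z) =
        Φ z * ∫⁻ z₀ in ball x₀ (2 * r), ENNReal.ofReal (G σ z₀ z) :=
      lintegral_const_mul _ hGz
    have e' : κ * Φ z ≤ Φ z * ∫⁻ z₀ in ball x₀ (2 * r), ENNReal.ofReal (G σ z₀ z) := by
      rw [mul_comm κ]
      exact mul_le_mul' le_rfl (h1 z hz)
    exact e'.trans e.ge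
  have e3 : ∫⁻ z in ball x₀ r, ∫⁻ z₀ in ball x₀ (2 * r), Φ z * ENNReal.ofReal (G σ z₀ z) =
      ∫⁻ z₀ in ball x₀ (2 * r), ∫⁻ z in ball x₀ r, Φ z * ENNReal.ofReal (G σ z₀ z) := by
    have hm1 : Measurable fun p : V × V => Φ p.1 := hΦ.comp measurable_fst
    have hm : Measurable (Function.uncurry fun z z₀ : V => Φ z * ENNReal.ofReal (G σ z₀ z)) :=
      hm1.mul hGm
    exact lintegral_lintegral_swap hm.aemeasurable
  have e4 : ∫⁻ z₀ in ball x₀ (2 * r), ∫⁻ z in ball x₀ r, Φ z * ENNReal.ofReal (G σ z₀ z) ≤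
      ∫⁻ z₀ in ball x₀ (2 * r), Bd := by
    refine setLIntegral_mono' measurableSet_ball fun z₀ hz₀ => ?_
    exact (setLIntegral_le_lintegral _ _).trans (hB z₀ hz₀)
  have e5 : ∫⁻ z₀ in ball x₀ (2 * r), Bd = volume (ball x₀ (2 * r)) * Bd := by
    rw [setLIntegral_const, mul_comm]
  rw [e1, ← e5]
  exact e2.trans (e3.le.trans e4)

/-- exponential against power -/
lemma exp_pow {c' δ p : ℝ} (hc : 0 < c') (hδ : 0 < δ) :
    ∃ C : ℝ, 0 ≤ C ∧ ∀ τ : ℝ, 1 ≤ τ → Real.exp (-(c' * τ ^ (2 * δ))) ≤ C * τ ^ (-p) := by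
  obtain ⟨n, hn⟩ := exists_nat_ge (p / (2 * δ))
  refine ⟨(n.factorial : ℝ) / c' ^ n, by positivity, fun τ hτ => ?_⟩
  have hτ0 : 0 < τ := by linarith
  have h1 := Real.pow_div_factorial_le_exp (c' * τ ^ (2 * δ)) (by positivity) n
  have h2 : τ ^ p ≤ (τ ^ (2 * δ)) ^ n := by
    rw [← Real.rpow_natCast, ← Real.rpow_mul hτ0.le]
    refine Real.rpow_le_rpow_of_exponent_le hτ ?_
    rw [div_le_iff₀ (by positivity)] at hn
    linarith
  rw [Real.exp_neg, Real.rpow_neg hτ0.le, ← div_eq_mul_inv, div_div, ← one_div,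
    div_le_div_iff₀ (Real.exp_pos _) (by positivity)]
  rw [mul_pow, div_le_iff₀ (by positivity)] at h1
  have h3 : c' ^ n * τ ^ p ≤ c' ^ n * (τ ^ (2 * δ)) ^ n :=
    mul_le_mul_of_nonneg_left h2 (by positivity)
  linarith [mul_comm (Real.exp (c' * τ ^ (2 * δ))) (n.factorial : ℝ)]

end PartL

open PartL in
theorem stmL (hG : StmG) : StmL := by
  intro V _ _ _ _ _ A hA hsym ν _ S hS hS0 K c r x₀ hc hr hK hcz s hs hν δ hδ hδ2
  obtain ⟨Cν, hC⟩ := hν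
  set p : ℝ := s * (1 - 2 * δ) with hp
  obtain ⟨C2, hC20, hC2⟩ := exp_pow (c' := 2 * c ^ 2 / (1 + 4 * K ^ 2)) (δ := δ) (p := p)
    (by positivity) hδ
  set κ : ℝ≥0∞ := ENNReal.ofReal (Real.exp (-(r ^ 2 / 2))) * volume (ball (0 : V) r) with hκ
  have hκ0 : κ ≠ 0 := by
    refine mul_ne_zero ?_ (measure_ball_pos _ _ hr).ne'
    rw [Ne, ENNReal.ofReal_eq_zero, not_le]
    exact Real.exp_pos _
  have hκt : κ ≠ ⊤ := ENNReal.mul_ne_top ENNReal.ofReal_ne_top measure_ball_lt_top.ne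
  set E : ℝ≥0∞ := volume (ball x₀ (2 * r)) * (ENNReal.ofReal (Real.sqrt (2 * Real.pi) ^ finrank ℝ V) *
    (Cν * ν univ + ENNReal.ofReal C2 * (ν univ * ν univ))) with hE
  have hEt : E ≠ ⊤ := by
    refine ENNReal.mul_ne_top measure_ball_lt_top.ne (ENNReal.mul_ne_top ENNReal.ofReal_ne_top ?_)
    refine ENNReal.add_ne_top.2 ⟨ENNReal.mul_ne_top ENNReal.coe_ne_top (measure_ne_top _ _), ?_⟩
    exact ENNReal.mul_ne_top ENNReal.ofReal_ne_top
      (ENNReal.mul_ne_top (measure_ne_top _ _) (measure_ne_top _ _))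
  refine ⟨(E / κ).toNNReal, fun τ hτ g hg hg1 => ?_⟩
  rw [ENNReal.coe_toNNReal (ENNReal.div_ne_top hEt hκ0)]
  have hτ0 : 0 < τ := by linarith
  have hσ : 0 < τ ^ (-δ) := by positivity
  have hσ1 : τ ^ (-δ) ≤ 1 := Real.rpow_le_one_of_one_le_of_nonpos hτ (by linarith)
  have hu : 0 < τ ^ (2 * δ) := by positivity
  have hu1 : (τ ^ (-δ)) ^ 2 * τ ^ (2 * δ) = 1 := by
    rw [← Real.rpow_natCast, ← Real.rpow_mul hτ0.le, ← Real.rpow_add hτ0]
    convert Real.rpow_zero τ using 2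
    push_cast
    ring
  have hρ : (τ ^ (2 * δ) / τ) ^ s = τ ^ (-p) := by
    have : τ ^ (2 * δ) / τ = τ ^ (2 * δ - 1) := by
      rw [Real.rpow_sub hτ0, Real.rpow_one]
    rw [this, ← Real.rpow_mul hτ0.le]
    congr 1
    rw [hp]; ring
  have hmain : ∀ z₀ ∈ ball x₀ (2 * r),
      ∫⁻ z, ‖T A ν τ g z‖ₑ ^ 2 * ENNReal.ofReal (G (τ ^ (-δ)) z₀ z) ≤
      ENNReal.ofReal ((τ ^ (-δ)) ^ finrank ℝ V) *
        (ENNReal.ofReal (Real.sqrt (2 * Real.pi) ^ finrank ℝ V) *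
        (Cν * ν univ + ENNReal.ofReal C2 * (ν univ * ν univ))) * ENNReal.ofReal (τ ^ (-p)) := by
    intro z₀ hz₀
    refine (tt hA hσ hg hg1 ν z₀).trans ((ker_int hG hsym hc ν hS0 hK (hcz z₀ hz₀) hC hσ hτ0 hu
      hu1).trans ?_)
    rw [hρ]
    have h1 : ENNReal.ofReal (Real.exp (-(2 * c ^ 2 / (1 + 4 * K ^ 2) * τ ^ (2 * δ)))) ≤
        ENNReal.ofReal C2 * ENNReal.ofReal (τ ^ (-p)) := by
      rw [← ENNReal.ofReal_mul hC20]
      exact ENNReal.ofReal_le_ofReal (hC2 τ hτ)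
    calc _ ≤ ENNReal.ofReal (Real.sqrt (2 * Real.pi) ^ finrank ℝ V) *
          ENNReal.ofReal ((τ ^ (-δ)) ^ finrank ℝ V) *
          (Cν * ENNReal.ofReal (τ ^ (-p)) * ν univ +
          (ENNReal.ofReal C2 * ENNReal.ofReal (τ ^ (-p))) * (ν univ * ν univ)) := by
          gcongr
      _ = _ := by ring
  have hloc := loc (Φ := fun z => ‖T A ν τ g z‖ₑ ^ 2)
    ((T_meas hA hg ν).measurable.enorm.pow_const 2) hσ hσ1 hr x₀ hmain
  have hσ0 : ENNReal.ofReal ((τ ^ (-δ)) ^ finrank ℝ V) ≠ 0 := by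
    rw [Ne, ENNReal.ofReal_eq_zero, not_le]; positivity
  have h1 : ENNReal.ofReal ((τ ^ (-δ)) ^ finrank ℝ V) * (κ * ∫⁻ z in ball x₀ r, ‖T A ν τ g z‖ₑ ^ 2) ≤
      ENNReal.ofReal ((τ ^ (-δ)) ^ finrank ℝ V) * (E * ENNReal.ofReal (τ ^ (-p))) := by
    refine le_trans (le_of_eq ?_) (hloc.trans (le_of_eq ?_))
    · rw [hκ]; ring
    · rw [hE]; ring
  have h2 := (ENNReal.mul_le_mul_iff_right hσ0 ENNReal.ofReal_ne_top).1 h1
  have h3 : ∫⁻ z in ball x₀ r, ‖T A ν τ g z‖ₑ ^ 2 ≤ (E * ENNReal.ofReal (τ ^ (-p))) / κ := by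
    rw [ENNReal.le_div_iff_mul_le (Or.inl hκ0) (Or.inl hκt), mul_comm]
    exact h2
  refine h3.trans (le_of_eq ?_)
  rw [div_eq_mul_inv, div_eq_mul_inv]
  ring

end R257.SV
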