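import Pool.Agent.R257.SV.Defs

/-!
# Part N of MP_83cc0d_an : nondegeneracy of `A(y) = |y|² I - y yᵀ`
-/

open MeasureTheory Metric Set Filter Topology Module
open scoped ENNReal NNReal InnerProductSpace

namespace R257.SV

section PartN

variable {V : Type} [NormedAddCommGroup V] [InnerProductSpace ℝ V]

/-- The linear map `h ↦ 2⟨p,h⟩ z - ⟨h,z⟩ p - ⟨p,z⟩ h` -/
noncomputable def LL (q : V × V) : V →L[ℝ] V :=
  (2 : ℝ) • (innerSL ℝ q.1).smulRight q.2 - (innerSL ℝ q.2).smulRight q.1 -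
    ⟪q.1, q.2⟫_ℝ • ContinuousLinearMap.id ℝ V

lemma LL_apply (q : V × V) (h : V) :
    LL q h = (2 * ⟪q.1, h⟫_ℝ) • q.2 - ⟪q.2, h⟫_ℝ • q.1 - ⟪q.1, q.2⟫_ℝ • h := by
  simp [LL, smul_smul]

lemma Aop_apply (y z : V) : Aop y z = (‖y‖ ^ 2) • z - ⟪y, z⟫_ℝ • y := by
  simp [Aop]

lemma Aop_sub_apply (y y' z : V) :
    (Aop y - Aop y') z = LL (((1 / 2 : ℝ) • (y + y'), z) : V × V) (y - y') := by
  rw [sub_apply, Aop_apply, Aop_apply, LL_apply]
  simp only [inner_add_left, inner_sub_right, inner_smul_left, real_inner_self_eq_norm_sq,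
    RCLike.conj_to_real]
  rw [real_inner_comm y y', real_inner_comm z y, real_inner_comm z y']
  module

lemma continuous_LL : Continuous (LL : V × V → V →L[ℝ] V) := by
  have h1 : Continuous fun q : V × V => (innerSL ℝ q.1).smulRight q.2 := by
    have := (ContinuousLinearMap.smulRightL ℝ V V).continuous₂
    exact this.comp (((innerSL ℝ).continuous.comp continuous_fst).prodMk continuous_snd)
  have h2 : Continuous fun q : V × V => (innerSL ℝ q.2).smulRight q.1 := by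
    have := (ContinuousLinearMap.smulRightL ℝ V V).continuous₂
    exact this.comp (((innerSL ℝ).continuous.comp continuous_snd).prodMk continuous_fst)
  have h3 : Continuous fun q : V × V => ⟪q.1, q.2⟫_ℝ := continuous_inner
  exact ((h1.const_smul (2 : ℝ)).sub h2).sub (h3.smul continuous_const)

lemma LL_inj (x₀ y₀ : V) (hxy : ⟪x₀, y₀⟫_ℝ ≠ 0) (hw : 0 < wedge2 x₀ y₀) (h : V)
    (h0 : LL (y₀, x₀) h = 0) : h = 0 := by
  rw [LL_apply] at h0
  simp only at h0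
  have e1 : ⟪x₀, (2 * ⟪y₀, h⟫_ℝ) • x₀ - ⟪x₀, h⟫_ℝ • y₀ - ⟪y₀, x₀⟫_ℝ • h⟫_ℝ = 0 := by
    rw [h0, inner_zero_right]
  have e2 : ⟪y₀, (2 * ⟪y₀, h⟫_ℝ) • x₀ - ⟪x₀, h⟫_ℝ • y₀ - ⟪y₀, x₀⟫_ℝ • h⟫_ℝ = 0 := by
    rw [h0, inner_zero_right]
  simp only [inner_sub_right, inner_smul_right, real_inner_self_eq_norm_sq] at e1 e2
  have hc : ⟪y₀, x₀⟫_ℝ = ⟪x₀, y₀⟫_ℝ := real_inner_comm _ _
  rw [hc] at e1 e2
  unfold wedge2 at hw
  set a := ‖x₀‖ ^ 2 with ha
  set b := ‖y₀‖ ^ 2 with hb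
  set c := ⟪x₀, y₀⟫_ℝ with hcdef
  set P := ⟪y₀, h⟫_ℝ with hP
  set Q := ⟪x₀, h⟫_ℝ with hQ
  have f1 : a * P = c * Q := by linarith
  have f2 : c * P = b * Q := by linarith
  have hP0 : P = 0 := by
    have : (a * b - c ^ 2) * P = 0 := by
      have : (a * b - c ^ 2) * P = b * (a * P) - c * (c * P) := by ring
      rw [this, f1, f2]; ring
    rcases mul_eq_zero.mp this with h | h
    · exact absurd h hw.ne'
    · exact h
  have hQ0 : Q = 0 := by
    have : c * Q = 0 := by rw [← f1, hP0, mul_zero]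
    rcases mul_eq_zero.mp this with h | h
    · exact absurd h hxy
    · exact h
  rw [hP0, hQ0] at h0
  simp only [mul_zero, zero_smul, sub_zero, zero_sub, neg_eq_zero, smul_eq_zero] at h0
  rcases h0 with h | h
  · exact absurd (hc.symm.trans h) hxy
  · exact h

theorem stmN : StmN := by
  intro V _ _ _ x₀ y₀ hxy hw
  -- antilipschitz constant
  have hker : LinearMap.ker ((LL (y₀, x₀) : V →L[ℝ] V) : V →ₗ[ℝ] V) = ⊥ := by
    rw [LinearMap.ker_eq_bot']
    intro m hm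
    exact LL_inj x₀ y₀ hxy hw m hm
  obtain ⟨K, hK, hanti⟩ := LinearMap.exists_antilipschitzWith _ hker
  have hK' : (0 : ℝ) < K := hK
  have hbd : ∀ h : V, ‖h‖ ≤ K * ‖LL (y₀, x₀) h‖ := by
    intro h
    have := hanti.le_mul_dist h 0
    simpa using this
  -- continuity
  have hcont := Metric.continuous_iff.mp (continuous_LL (V := V)) (y₀, x₀) (1 / (2 * K))
    (by positivity)
  obtain ⟨ε, hε, hball⟩ := hcont
  set R : ℝ := ‖y₀‖ + ε / 5 with hR
  have hR0 : 0 ≤ R := by positivity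
  have hnorm : ∀ y ∈ ball y₀ (ε / 5), ‖y‖ ≤ R := by
    intro y hy
    have h1 : ‖y - y₀‖ < ε / 5 := by simpa [dist_eq_norm] using hy
    have h2 : ‖y‖ ≤ ‖y₀‖ + ‖y - y₀‖ := by
      have := norm_add_le y₀ (y - y₀)
      simpa using this
    linarith
  have hmid : ∀ y ∈ ball y₀ (ε / 5), ∀ y' ∈ ball y₀ (ε / 5),
      (1 / 2 : ℝ) • (y + y') ∈ ball y₀ (ε / 5) := by
    intro y hy y' hy'
    have := (convex_ball y₀ (ε / 5)) hy hy' (by norm_num : (0 : ℝ) ≤ 1 / 2)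
      (by norm_num : (0 : ℝ) ≤ 1 / 2) (by norm_num)
    rwa [← smul_add] at this
  refine ⟨ε / 5, 1 / (2 * K), 2 * R ^ 2 + 4 * R, by positivity, by positivity, ?_, ?_, ?_⟩
  · intro y hy
    refine ContinuousLinearMap.opNorm_le_bound _ (by positivity) fun z => ?_
    rw [Aop_apply]
    have h1 : ‖(‖y‖ ^ 2) • z - ⟪y, z⟫_ℝ • y‖ ≤ ‖y‖ ^ 2 * ‖z‖ + (‖y‖ * ‖z‖) * ‖y‖ := by
      refine (norm_sub_le _ _).trans ?_
      rw [norm_smul, norm_smul]
      have := abs_real_inner_le_norm y z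
      rw [Real.norm_eq_abs, abs_of_nonneg (sq_nonneg _), Real.norm_eq_abs]
      gcongr
    have h2 : ‖y‖ ^ 2 ≤ R ^ 2 := by
      have := hnorm y hy
      gcongr
    have h3 : 0 ≤ ‖z‖ := norm_nonneg z
    nlinarith [mul_le_mul_of_nonneg_right h2 h3, mul_nonneg hR0 h3]
  · intro y hy y' hy'
    refine ContinuousLinearMap.opNorm_le_bound _ (by positivity) fun z => ?_
    rw [Aop_sub_apply, LL_apply]
    have hp := hnorm _ (hmid y hy y' hy')
    set p := (1 / 2 : ℝ) • (y + y') with hpdef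
    set h := y - y' with hh
    simp only
    have h1 : ‖(2 * ⟪p, h⟫_ℝ) • z - ⟪z, h⟫_ℝ • p - ⟪p, z⟫_ℝ • h‖ ≤
        (2 * (‖p‖ * ‖h‖)) * ‖z‖ + (‖z‖ * ‖h‖) * ‖p‖ + (‖p‖ * ‖z‖) * ‖h‖ := by
      refine (norm_sub_le _ _).trans ?_
      refine add_le_add ((norm_sub_le _ _).trans ?_) ?_
      · rw [norm_smul, norm_smul, norm_mul]
        simp only [Real.norm_eq_abs]
        rw [abs_of_pos (by norm_num : (0 : ℝ) < 2)]
        have e1 := abs_real_inner_le_norm p h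
        have e2 := abs_real_inner_le_norm z h
        gcongr
      · rw [norm_smul, Real.norm_eq_abs]
        have e1 := abs_real_inner_le_norm p z
        gcongr
    have h2 : (2 * (‖p‖ * ‖h‖)) * ‖z‖ + (‖z‖ * ‖h‖) * ‖p‖ + (‖p‖ * ‖z‖) * ‖h‖ =
        4 * ‖p‖ * (‖h‖ * ‖z‖) := by ring
    rw [h2] at h1
    refine h1.trans ?_
    have h3 : 0 ≤ ‖h‖ * ‖z‖ := by positivity
    nlinarith [mul_le_mul_of_nonneg_right hp h3, mul_nonneg (sq_nonneg R) h3]
  · intro z hz y hy y' hy'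
    rw [Aop_sub_apply]
    have hp := hmid y hy y' hy'
    set p := (1 / 2 : ℝ) • (y + y') with hpdef
    have hd : dist ((p, z) : V × V) (y₀, x₀) < ε := by
      rw [Prod.dist_eq, max_lt_iff]
      rw [mem_ball] at hp hz
      constructor
      · simp only; linarith
      · simp only; linarith
    have h1 := hball _ hd
    rw [dist_eq_norm] at h1
    have h2 := (LL (p, z) - LL (y₀, x₀)).le_opNorm (y - y')
    have h3 := hbd (y - y')
    have h4 : ‖LL (y₀, x₀) (y - y')‖ ≤ ‖LL (p, z) (y - y')‖ +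
        ‖(LL (p, z) - LL (y₀, x₀)) (y - y')‖ := by
      have : LL (y₀, x₀) (y - y') = LL (p, z) (y - y') - (LL (p, z) - LL (y₀, x₀)) (y - y') := by
        rw [sub_apply]; abel
      rw [this]
      exact norm_sub_le _ _
    have h5 : ‖y - y'‖ / K ≤ ‖LL (y₀, x₀) (y - y')‖ := by
      rw [div_le_iff₀ hK']
      linarith
    have h6 : ‖(LL (p, z) - LL (y₀, x₀)) (y - y')‖ ≤ 1 / (2 * K) * ‖y - y'‖ :=
      h2.trans (mul_le_mul_of_nonneg_right h1.le (norm_nonneg _))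
    have h7 : ‖y - y'‖ / K = 1 / (2 * K) * ‖y - y'‖ + 1 / (2 * K) * ‖y - y'‖ := by
      field_simp
      ring
    linarith

end PartN

end R257.SV
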