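import Pool.Agent.R257.SV.Defs

/-!
# Part O of MP_83cc0d_an : orthogonal pairs are null
-/

open MeasureTheory Metric Set Filter Topology Module
open scoped ENNReal NNReal InnerProductSpace

namespace R257.SV

section PartO

variable {V : Type} [NormedAddCommGroup V] [InnerProductSpace ℝ V] [FiniteDimensional ℝ V]
  [MeasurableSpace V] [BorelSpace V]

/-- minimal subspaces of positive measure -/
def minSub (ν : Measure V) : Set (Submodule ℝ V) :=
  {H | 0 < ν (H : Set V) ∧ ∀ H' : Submodule ℝ V, H' < H → ν (H' : Set V) = 0}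

lemma exists_minSub (ν : Measure V) (K : Submodule ℝ V) (hK : 0 < ν (K : Set V)) :
    ∃ H ∈ minSub ν, H ≤ K := by
  obtain ⟨H, hH, hmin⟩ := WellFounded.has_min (wellFounded_lt (α := Submodule ℝ V))
    {H : Submodule ℝ V | H ≤ K ∧ 0 < ν (H : Set V)} ⟨K, le_refl K, hK⟩
  refine ⟨H, ⟨hH.2, fun H' hH' => ?_⟩, hH.1⟩
  by_contra hne
  exact hmin H' ⟨hH'.le.trans hH.1, pos_iff_ne_zero.mpr hne⟩ hH'

lemma countable_minSub (ν : Measure V) [IsFiniteMeasure ν] : (minSub ν).Countable := by
  have h := Measure.countable_meas_pos_of_disjoint_iUnion₀ (μ := ν)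
    (As := fun H : minSub ν => ((H : Submodule ℝ V) : Set V))
    (fun H => (Submodule.closed_of_finiteDimensional _).measurableSet.nullMeasurableSet) (by
      intro H₁ H₂ hne
      change ν (((H₁ : Submodule ℝ V) : Set V) ∩ ((H₂ : Submodule ℝ V) : Set V)) = 0
      rw [← Submodule.coe_inf]
      by_cases h1 : (H₁ : Submodule ℝ V) ⊓ H₂ < H₁
      · exact H₁.2.2 _ h1
      · have h2 : (H₁ : Submodule ℝ V) ⊓ H₂ = H₁ := by
          by_contra hc
          exact h1 (lt_of_le_of_ne inf_le_left hc)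
        have h3 : (H₁ : Submodule ℝ V) ≤ H₂ := inf_eq_left.mp h2
        have h4 : (H₁ : Submodule ℝ V) < H₂ := lt_of_le_of_ne h3 (fun h => hne (Subtype.ext h))
        rw [h2]
        exact H₂.2.2 _ h4)
  have h2 : {H : minSub ν | 0 < ν ((H : Submodule ℝ V) : Set V)} = univ := by
    ext H
    simp only [mem_univ, iff_true]
    exact H.2.1
  rw [h2] at h
  exact countable_univ_iff.mp h

theorem stmO (hH : StmH) : StmO := by
  intro V _ _ _ _ _ μ ν _ _ s hs hμ hν
  have hclosed : IsClosed {p : V × V | ⟪p.1, p.2⟫_ℝ = 0} :=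
    isClosed_eq continuous_inner continuous_const
  rw [Measure.measure_prod_null hclosed.measurableSet]
  -- the exceptional set
  have hsub : {x : V | ν {y : V | ⟪x, y⟫_ℝ = 0} ≠ 0} ⊆
      ⋃ H ∈ minSub ν, ((Hᗮ : Submodule ℝ V) : Set V) := by
    intro x hx
    have hx' : ν (((ℝ ∙ x)ᗮ : Submodule ℝ V) : Set V) ≠ 0 := by
      have : (((ℝ ∙ x)ᗮ : Submodule ℝ V) : Set V) = {y : V | ⟪x, y⟫_ℝ = 0} := by
        ext y
        simp [Submodule.mem_orthogonal_singleton_iff_inner_right]
      rw [this]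
      exact hx
    obtain ⟨H, hHm, hle⟩ := exists_minSub ν _ (pos_iff_ne_zero.mpr hx')
    simp only [mem_iUnion]
    refine ⟨H, hHm, ?_⟩
    rw [SetLike.mem_coe, Submodule.mem_orthogonal]
    intro u hu
    have := hle hu
    rw [Submodule.mem_orthogonal_singleton_iff_inner_right] at this
    rw [real_inner_comm]
    exact this
  have hnull : μ (⋃ H ∈ minSub ν, ((Hᗮ : Submodule ℝ V) : Set V)) = 0 := by
    rw [measure_biUnion_null_iff (countable_minSub ν)]
    intro H hHm
    refine hH V μ s hμ Hᗮ ?_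
    have h1 : s ≤ (finrank ℝ H : ℝ) := by
      by_contra hlt
      push Not at hlt
      have := hH V ν s hν H hlt
      exact hHm.1.ne' this
    have h2 : finrank ℝ H + finrank ℝ (Hᗮ : Submodule ℝ V) = finrank ℝ V :=
      Submodule.finrank_add_finrank_orthogonal H
    have h3 : (finrank ℝ H : ℝ) + (finrank ℝ (Hᗮ : Submodule ℝ V) : ℝ) = (finrank ℝ V : ℝ) := by
      exact_mod_cast h2
    linarith
  have h0 : μ {x : V | ν {y : V | ⟪x, y⟫_ℝ = 0} ≠ 0} = 0 := measure_mono_null hsub hnull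
  rw [Filter.EventuallyEq, ae_iff]
  exact h0

end PartO

end R257.SV
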